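import Mathlib

set_option autoImplicit false

namespace Pool.Agent.Helper42

open Set

/-- Transfinite dependent choice. -/
theorem exists_rec {I : Type*} [LinearOrder I] [WellFoundedLT I] {X : Type*} [Inhabited X]
    (Pr : I → X → Prop) (Q : I → I → X → X → Prop)
    (hstep : ∀ (a : I) (g : I → X), (∀ b < a, Pr b (g b)) →
      (∀ b c, b < c → c < a → Q b c (g b) (g c)) → ∃ x, Pr a x ∧ ∀ b < a, Q b a (g b) x) :
    ∃ F : I → X, (∀ a, Pr a (F a)) ∧ ∀ b a, b < a → Q b a (F b) (F a) := by
  classical
  let wf : WellFounded (fun x y : I => x < y) := wellFounded_lt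
  let F : I → X := wf.fix (fun a ih =>
    if h : ∃ x, Pr a x ∧ ∀ b (hb : b < a), Q b a (ih b hb) x then h.choose else default)
  have hF : ∀ a, F a = if h : ∃ x, Pr a x ∧ ∀ b (_ : b < a), Q b a (F b) x
      then h.choose else default := by
    intro a
    exact wf.fix_eq _ a
  have main : ∀ a, Pr a (F a) ∧ ∀ b < a, Q b a (F b) (F a) := by
    intro a
    induction a using wf.induction with
    | _ a ih =>
      have hex : ∃ x, Pr a x ∧ ∀ b (_ : b < a), Q b a (F b) x := by
        refine hstep a F (fun b hb => (ih b hb).1) ?_
        intro b c hbc hca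
        exact (ih c hca).2 b hbc
      have h2 : F a = hex.choose := by rw [hF a, dif_pos hex]
      rw [h2]
      exact hex.choose_spec
  exact ⟨F, fun a => (main a).1, fun b a hba => (main a).2 b hba⟩

section Coherent

variable {I : Type*} [LinearOrder I]

/-- Truncation of a value at level `a`. -/
noncomputable def trunc (a : I) (x : WithTop I) : WithTop I :=
  if x ≤ (a : WithTop I) then x else ⊤

theorem trunc_top (a : I) : trunc a (⊤ : WithTop I) = ⊤ := by
  simp [trunc]

theorem trunc_of_le {a : I} {x : WithTop I} (h : x ≤ a) : trunc a x = x := by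
  simp [trunc, h]

theorem trunc_of_lt {a : I} {x : WithTop I} (h : (a : WithTop I) < x) : trunc a x = ⊤ := by
  simp [trunc, not_le.2 h]

theorem trunc_trunc {a b : I} (h : a ≤ b) (x : WithTop I) : trunc a (trunc b x) = trunc a x := by
  have hab : (a : WithTop I) ≤ b := by exact_mod_cast h
  by_cases hx : x ≤ (b : WithTop I)
  · rw [trunc_of_le hx]
  · have hx' := not_le.1 hx
    rw [trunc_of_lt hx', trunc_top, trunc_of_lt (lt_of_le_of_lt hab hx')]

theorem le_of_trunc_ne_top {a : I} {x : WithTop I} (h : trunc a x ≠ ⊤) : x ≤ a := by
  by_contra hx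
  exact h (trunc_of_lt (not_le.1 hx))

/-- `f` is a good assignment at level `a`. -/
def Good (a : I) (f : ℕ → WithTop I) : Prop :=
  (∀ c : I, c ≤ a → {n | f n = (c : WithTop I)}.Infinite) ∧ {n | f n = ⊤}.Infinite ∧
    ∀ n, trunc a (f n) = f n

/-- coherence -/
def Coh (a : I) (f g : ℕ → WithTop I) : Prop := {n | trunc a (g n) ≠ f n}.Finite

theorem coh_step (a : I) (ha : (Iio a).Countable) (g : I → ℕ → WithTop I)
    (hg : ∀ b < a, Good b (g b)) (hc' : ∀ b c, b < c → c < a → Coh b (g b) (g c)) :
    ∃ f, Good a f ∧ ∀ b < a, Coh b (g b) f := by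
  classical
  have hc : ∀ b c, b ≤ c → c < a → Coh b (g b) (g c) := by
    intro b c hbc hca
    rcases hbc.lt_or_eq with h | rfl
    · exact hc' b c h hca
    · have := (hg b hca).2.2
      simp [Coh, this]
  rcases (Iio a).eq_empty_or_nonempty with hemp | hne
  · -- bottom
    refine ⟨fun n => if Even n then (a : WithTop I) else ⊤, ⟨?_, ?_, ?_⟩, ?_⟩
    · intro c hca
      have : c = a := by
        rcases hca.lt_or_eq with h | h
        · have : c ∈ Iio a := h
          rw [hemp] at this
          exact absurd this (by simp)
        · exact h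
      subst this
      refine Set.infinite_of_injective_forall_mem (f := fun n : ℕ => 2 * n) ?_ ?_
      · intro x y h; simpa using h
      · intro n; simp
    · refine Set.infinite_of_injective_forall_mem (f := fun n : ℕ => 2 * n + 1) ?_ ?_
      · intro x y h; simpa using h
      · intro n; simp
    · intro n
      by_cases h : Even n
      · simp [h, trunc]
      · simp [h, trunc]
    · intro b hb
      have : b ∈ Iio a := hb
      rw [hemp] at this
      exact absurd this (by simp)
  · obtain ⟨s, hs⟩ := ha.exists_eq_range hne
    have hs1 : ∀ n, s n < a := by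
      intro n
      have : s n ∈ Iio a := by rw [hs]; exact ⟨n, rfl⟩
      exact this
    set b : ℕ → I := fun n => partialSups s n with hb
    have hbmono : Monotone b := (partialSups s).monotone
    have hblt : ∀ n, b n < a := by
      intro n
      induction n with
      | zero => simpa [hb] using hs1 0
      | succ n ih =>
        have : b (n + 1) = b n ⊔ s (n + 1) := by
          simp only [hb]
          exact partialSups_succ s n
        rw [this]
        exact max_lt ih (hs1 _)
    have hbcof : ∀ c < a, ∃ n, c ≤ b n := by
      intro c hca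
      have : c ∈ range s := by rw [← hs]; exact hca
      obtain ⟨n, rfl⟩ := this
      exact ⟨n, le_partialSups s n⟩
    -- the bad set
    let bad : ℕ → Set ℕ := fun m =>
      ⋃ j ∈ Iic m, ⋃ i ∈ Iic j, {k | trunc (b i) (g (b j) k) ≠ g (b i) k}
    have hbad : ∀ m, (bad m).Finite := by
      intro m
      refine Set.Finite.biUnion (finite_Iic m) fun j _ => ?_
      refine Set.Finite.biUnion (finite_Iic j) fun i hi => ?_
      exact hc (b i) (b j) (hbmono hi) (hblt j)
    have hbad' : ∀ m k, k ∉ bad m → ∀ j ≤ m, ∀ i ≤ j, trunc (b i) (g (b j) k) = g (b i) k := by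
      intro m k hk j hj i hi
      by_contra hcon
      apply hk
      simp only [bad, mem_iUnion]
      exact ⟨j, hj, i, hi, hcon⟩
    have hS : ∀ m, ∃ᶠ k in Filter.atTop, ∀ i ≤ m, g (b i) k = ⊤ := by
      intro m
      rw [Nat.frequently_atTop_iff_infinite]
      have h1 : ({k | g (b m) k = ⊤} \ bad m).Infinite := ((hg (b m) (hblt m)).2.1).diff (hbad m)
      refine h1.mono ?_
      rintro k ⟨hk1, hk2⟩ i hi
      have := hbad' m k hk2 m le_rfl i hi
      rw [← this]
      have hk1' : g (b m) k = ⊤ := hk1
      rw [hk1', trunc_top]
    obtain ⟨φ, hφ, hφS⟩ := Filter.extraction_forall_of_frequently hS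
    let base : ℕ → WithTop I := fun k =>
      if h : ∃ n, g (b n) k ≠ ⊤ then
        (if ∀ i < Nat.find h, (b i : WithTop I) < g (b (Nat.find h)) k
          then g (b (Nat.find h)) k else ⊤)
      else ⊤
    let f : ℕ → WithTop I := fun k =>
      if k ∈ range (fun j => φ (2 * j)) then ⊤ else
        if k ∈ range (fun j => φ (2 * j + 1)) then (a : WithTop I) else base k
    have hf0 : ∀ j, f (φ (2 * j)) = ⊤ := by
      intro j
      have : φ (2 * j) ∈ range (fun j => φ (2 * j)) := ⟨j, rfl⟩
      simp only [f, if_pos this]
    have hf1 : ∀ j, f (φ (2 * j + 1)) = a := by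
      intro j
      have h1 : φ (2 * j + 1) ∉ range (fun j => φ (2 * j)) := by
        rintro ⟨i, hi⟩
        have := hφ.injective hi
        omega
      have h2 : φ (2 * j + 1) ∈ range (fun j => φ (2 * j + 1)) := ⟨j, rfl⟩
      simp only [f, if_neg h1, if_pos h2]
    have claim : ∀ m k, k ∉ bad m → (∀ j < m, k ≠ φ j) → trunc (b m) (f k) = g (b m) k := by
      intro m k hk hkφ
      have hco := hbad' m k hk
      by_cases h1 : k ∈ range (fun j => φ (2 * j))
      · obtain ⟨j, rfl⟩ := h1
        have hmj : m ≤ 2 * j := by
          by_contra hlt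
          exact hkφ (2 * j) (not_le.1 hlt) rfl
        simp only [hf0, trunc_top]
        exact (hφS (2 * j) m hmj).symm
      by_cases h2 : k ∈ range (fun j => φ (2 * j + 1))
      · obtain ⟨j, rfl⟩ := h2
        have hmj : m ≤ 2 * j + 1 := by
          by_contra hlt
          exact hkφ (2 * j + 1) (not_le.1 hlt) rfl
        simp only [hf1]
        rw [hφS (2 * j + 1) m hmj]
        exact trunc_of_lt (by exact_mod_cast hblt m)
      have hfk : f k = base k := by simp only [f, if_neg h1, if_neg h2]
      rw [hfk]
      by_cases htop : g (b m) k = ⊤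
      · rw [htop]
        by_cases hex : ∃ n, g (b n) k ≠ ⊤
        · have hlt : m < Nat.find hex := by
            rw [Nat.lt_find_iff]
            intro n hn
            rw [not_not, ← hco m le_rfl n hn, htop, trunc_top]
          by_cases hcond : ∀ i < Nat.find hex, (b i : WithTop I) < g (b (Nat.find hex)) k
          · simp only [base, dif_pos hex, if_pos hcond]
            exact trunc_of_lt (hcond m hlt)
          · simp only [base, dif_pos hex, if_neg hcond]
            exact trunc_top _
        · simp only [base, dif_neg hex]
          exact trunc_top _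
      · have hex : ∃ n, g (b n) k ≠ ⊤ := ⟨m, htop⟩
        have hle : Nat.find hex ≤ m := Nat.find_min' hex htop
        have hne : g (b (Nat.find hex)) k ≠ ⊤ := Nat.find_spec hex
        have heq : trunc (b (Nat.find hex)) (g (b m) k) = g (b (Nat.find hex)) k :=
          hco m le_rfl _ hle
        have hle2 : g (b m) k ≤ b (Nat.find hex) := le_of_trunc_ne_top (by rw [heq]; exact hne)
        have heq2 : g (b (Nat.find hex)) k = g (b m) k := by
          rw [← heq, trunc_of_le hle2]
        have hcond : ∀ i < Nat.find hex, (b i : WithTop I) < g (b (Nat.find hex)) k := by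
          intro i hi
          rw [heq2]
          by_contra hcon
          have h3 : g (b i) k = ⊤ := by
            have := Nat.find_min hex hi
            rwa [not_not] at this
          have h4 : trunc (b i) (g (b m) k) = g (b i) k := hco m le_rfl i (hi.le.trans hle)
          rw [trunc_of_le (not_lt.1 hcon), h3] at h4
          exact htop h4
        simp only [base, dif_pos hex, if_pos hcond]
        rw [heq2]
        exact (hg (b m) (hblt m)).2.2 k
    have claim' : ∀ m, Coh (b m) (g (b m)) f := by
      intro m
      refine ((hbad m).union ((finite_Iio m).image φ)).subset ?_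
      intro k hk
      by_contra hcon
      simp only [mem_union, not_or] at hcon
      apply hk
      refine claim m k hcon.1 ?_
      intro j hj hkj
      exact hcon.2 ⟨j, hj, hkj.symm⟩
    have claim'' : ∀ c < a, Coh c (g c) f := by
      intro c hca
      obtain ⟨m, hm⟩ := hbcof c hca
      refine ((claim' m).union (hc c (b m) hm (hblt m))).subset ?_
      intro k hk
      by_contra hcon
      simp only [mem_union, not_or, mem_setOf_eq, not_not] at hcon
      apply hk
      rw [← trunc_trunc hm, hcon.1, hcon.2]
    refine ⟨f, ⟨?_, ?_, ?_⟩, claim''⟩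
    · intro c hca
      rcases hca.lt_or_eq with h | rfl
      · have h1 := ((hg c h).1 c le_rfl).diff (claim'' c h)
        refine h1.mono ?_
        rintro k ⟨hk1, hk2⟩
        simp only [mem_setOf_eq, not_not] at hk1 hk2 ⊢
        rw [hk1] at hk2
        have hle : f k ≤ c := le_of_trunc_ne_top (by rw [hk2]; exact WithTop.coe_ne_top)
        rw [← hk2, trunc_of_le hle]
      · refine Set.infinite_of_injective_forall_mem (f := fun n : ℕ => φ (2 * n + 1)) ?_ ?_
        · intro x y h
          have := hφ.injective h
          omega
        · intro n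
          exact hf1 n
    · refine Set.infinite_of_injective_forall_mem (f := fun n : ℕ => φ (2 * n)) ?_ ?_
      · intro x y h
        have := hφ.injective h
        omega
      · intro n
        exact hf0 n
    · intro k
      by_cases h1 : k ∈ range (fun j => φ (2 * j))
      · simp only [f, if_pos h1, trunc_top]
      by_cases h2 : k ∈ range (fun j => φ (2 * j + 1))
      · simp only [f, if_neg h1, if_pos h2]
        exact trunc_of_le le_rfl
      simp only [f, if_neg h1, if_neg h2]
      by_cases hex : ∃ n, g (b n) k ≠ ⊤
      · by_cases hcond : ∀ i < Nat.find hex, (b i : WithTop I) < g (b (Nat.find hex)) k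
        · simp only [base, dif_pos hex, if_pos hcond]
          have h3 : g (b (Nat.find hex)) k ≤ b (Nat.find hex) := by
            apply le_of_trunc_ne_top
            rw [(hg _ (hblt _)).2.2 k]
            exact Nat.find_spec hex
          refine trunc_of_le (h3.trans ?_)
          exact_mod_cast (hblt _).le
        · simp only [base, dif_pos hex, if_neg hcond]
          exact trunc_top _
      · simp only [base, dif_neg hex]
        exact trunc_top _

/-- A coherent family of assignments along a well-order with countable initial segments. -/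
theorem exists_coherent [WellFoundedLT I] (hI : ∀ a : I, (Iio a).Countable) :
    ∃ F : I → ℕ → WithTop I, (∀ a, Good a (F a)) ∧ ∀ a b, a ≤ b → Coh a (F a) (F b) := by
  obtain ⟨F, h1, h2⟩ := exists_rec (I := I) (X := ℕ → WithTop I) (fun a f => Good a f)
    (fun a _ f g => Coh a f g) (fun a g hg hc => coh_step a (hI a) g hg hc)
  refine ⟨F, h1, ?_⟩
  intro a b hab
  rcases hab.lt_or_eq with h | rfl
  · exact h2 a b h
  · have := (h1 a).2.2
    simp [Coh, this]

end Coherent

end Pool.Agent.Helper42
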