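import Mathlib

set_option autoImplicit false

namespace Pool.Agent.Helper42

open Topology Set

section Glue

variable {J : Type*} {Y : Type*} [TopologicalSpace Y]

/-- A relation on a disjoint union of copies of `Y` which is given by local homeomorphisms. -/
def IsLocHomeoRel (R : (Σ _ : J, Y) → (Σ _ : J, Y) → Prop) : Prop :=
  ∀ p q, R p q → ∃ e : OpenPartialHomeomorph Y Y,
    p.2 ∈ e.source ∧ e p.2 = q.2 ∧ ∀ x ∈ e.source, R ⟨p.1, x⟩ ⟨q.1, e x⟩

/-- The `j`-th copy of `Y` in the quotient. -/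
def glueMap (R : (Σ _ : J, Y) → (Σ _ : J, Y) → Prop) (j : J) (y : Y) : Quot R :=
  Quot.mk R ⟨j, y⟩

theorem glueMap_surj (R : (Σ _ : J, Y) → (Σ _ : J, Y) → Prop) (m : Quot R) :
    ∃ j y, glueMap R j y = m := by
  obtain ⟨⟨j, y⟩, rfl⟩ := Quot.exists_rep m
  exact ⟨j, y, rfl⟩

theorem exists_of_eqvGen {R : (Σ _ : J, Y) → (Σ _ : J, Y) → Prop} (hR : IsLocHomeoRel R)
    {p q : Σ _ : J, Y} (h : Relation.EqvGen R p q) :
    ∃ e : OpenPartialHomeomorph Y Y,
      p.2 ∈ e.source ∧ e p.2 = q.2 ∧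
        ∀ x ∈ e.source, glueMap R p.1 x = glueMap R q.1 (e x) := by
  induction h with
  | rel x y hxy =>
    obtain ⟨e, h1, h2, h3⟩ := hR x y hxy
    exact ⟨e, h1, h2, fun z hz => Quot.sound (h3 z hz)⟩
  | refl x =>
    exact ⟨OpenPartialHomeomorph.refl Y, by simp, by simp, fun z _ => by simp⟩
  | symm x y _ ih =>
    obtain ⟨e, h1, h2, h3⟩ := ih
    refine ⟨e.symm, ?_, ?_, ?_⟩
    · simpa [← h2] using e.map_source h1
    · rw [← h2]; exact e.left_inv h1
    · intro z hz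
      have hz' : e.symm z ∈ e.source := e.map_target (by simpa using hz)
      rw [h3 _ hz', e.right_inv (by simpa using hz)]
  | trans x y z _ _ ih1 ih2 =>
    obtain ⟨e, h1, h2, h3⟩ := ih1
    obtain ⟨e', h1', h2', h3'⟩ := ih2
    refine ⟨e.trans e', ?_, ?_, ?_⟩
    · simp [h1, h2, h1']
    · simp [h2, h2']
    · intro w hw
      have hw' : w ∈ e.source ∧ e w ∈ e'.source := by simpa using hw
      rw [h3 _ hw'.1, h3' _ hw'.2]
      rfl

theorem continuous_glueMap (R : (Σ _ : J, Y) → (Σ _ : J, Y) → Prop) (j : J) :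
    Continuous (glueMap R j) :=
  continuous_quot_mk.comp continuous_sigmaMk

theorem isOpen_iff_glueMap {R : (Σ _ : J, Y) → (Σ _ : J, Y) → Prop} {W : Set (Quot R)} :
    IsOpen W ↔ ∀ j, IsOpen (glueMap R j ⁻¹' W) := by
  have h1 : IsOpen W ↔ IsOpen (Quot.mk R ⁻¹' W) := isOpen_coinduced
  rw [h1, isOpen_sigma_iff]
  rfl

theorem isOpenMap_glueMap {R : (Σ _ : J, Y) → (Σ _ : J, Y) → Prop} (hR : IsLocHomeoRel R)
    (j : J) : IsOpenMap (glueMap R j) := by
  intro U hU
  rw [isOpen_iff_glueMap]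
  intro i
  rw [isOpen_iff_forall_mem_open]
  rintro x ⟨u, hu, hux⟩
  have h : Relation.EqvGen R ⟨i, x⟩ ⟨j, u⟩ := Quot.eqvGen_exact hux.symm
  obtain ⟨e, h1, h2, h3⟩ := exists_of_eqvGen hR h
  refine ⟨e.source ∩ e ⁻¹' U, ?_, e.isOpen_inter_preimage hU, h1, ?_⟩
  · rintro y ⟨hy1, hy2⟩
    exact ⟨e y, hy2, (h3 y hy1).symm⟩
  · simp only [mem_preimage]
    have : e x = u := h2
    rw [this]; exact hu

theorem continuous_quot_iff {R : (Σ _ : J, Y) → (Σ _ : J, Y) → Prop} {Z : Type*}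
    [TopologicalSpace Z] {f : Quot R → Z} :
    Continuous f ↔ ∀ j, Continuous (f ∘ glueMap R j) := by
  constructor
  · intro h j
    exact h.comp (continuous_glueMap R j)
  · intro h
    rw [continuous_def]
    intro s hs
    rw [isOpen_iff_glueMap]
    intro j
    exact (h j).isOpen_preimage s hs

/-- If an invariant separates the points of the `j`-th copy, this copy is openly embedded. -/
theorem isOpenEmbedding_glueMap {R : (Σ _ : J, Y) → (Σ _ : J, Y) → Prop}
    (hR : IsLocHomeoRel R) {S : Type*} (Φ : (Σ _ : J, Y) → S)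
    (hΦ : ∀ p q, R p q → Φ p = Φ q) (j : J) (hj : Function.Injective fun y => Φ ⟨j, y⟩) :
    IsOpenEmbedding (glueMap R j) := by
  refine IsOpenEmbedding.of_continuous_injective_isOpenMap (continuous_glueMap R j) ?_
    (isOpenMap_glueMap hR j)
  intro x y hxy
  have h := congrArg (Quot.lift Φ hΦ) hxy
  exact hj h

end Glue

end Pool.Agent.Helper42
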