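import Mathlib
import Pool.Agent.Helper42.Glue
import Pool.Agent.Helper42.Coherent

set_option autoImplicit false

namespace Pool.Agent.Helper42

open Topology Set

/-- Given two open embeddings of the same space, the transition map. -/
theorem exists_transition {Q Y : Type*} [TopologicalSpace Q] [TopologicalSpace Y] [Nonempty Q]
    {f g : Q → Y} (hf : IsOpenEmbedding f) (hg : IsOpenEmbedding g) :
    ∃ e : OpenPartialHomeomorph Y Y, e.source = range f ∧ ∀ q, e (f q) = g q := by
  refine ⟨(hf.toOpenPartialHomeomorph f).symm.trans (hg.toOpenPartialHomeomorph g), ?_, ?_⟩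
  · simp
  · intro q
    rw [OpenPartialHomeomorph.trans_apply, hf.toOpenPartialHomeomorph_left_inv]
    simp

/-- Gluing data. -/
structure CohData (I : Type) [LinearOrder I] (Y : Type) [TopologicalSpace Y]
    (Q : Type) [TopologicalSpace Q] where
  F : I → ℕ → WithTop I
  good : ∀ a, Good a (F a)
  coh : ∀ a b, a ≤ b → Coh a (F a) (F b)
  lev : Y → I
  open_lev : ∀ a, IsOpen {y | lev y ≤ a}
  k : I → ℕ → Q → Y
  k_emb : ∀ b n, IsOpenEmbedding (k b n)
  k' : ℕ → Q → Y
  k'_emb : ∀ n, IsOpenEmbedding (k' n)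
  k'_disj : ∀ n m q r, k' n q = k' m r → n = m
  C : I → ℕ → Set Y
  C_closed : ∀ b n, IsClosed (C b n)
  k_mem : ∀ b n q, k b n q ∈ C b n
  C_disj : ∀ b n c m y, y ∈ C b n → y ∈ C c m → b = c ∧ n = m
  C_lev : ∀ b n y, y ∈ C b n → lev y = b

namespace CohData

variable {I : Type} [LinearOrder I] {Y : Type} [TopologicalSpace Y]
    {Q : Type} [TopologicalSpace Q] (D : CohData I Y Q)

/-- The gluing relation. -/
inductive Rel : (Σ _ : Option I, Y) → (Σ _ : Option I, Y) → Prop
  | same (a b : I) (p : Y) (ha : D.lev p ≤ a) (hb : D.lev p ≤ b)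
      (h : ∀ c n, p ∈ D.C c n → (D.F a n = (c : WithTop I) ↔ D.F b n = (c : WithTop I))) :
      Rel ⟨some a, p⟩ ⟨some b, p⟩
  | glue (a b : I) (n : ℕ) (q : Q) (h : D.F a n = (b : WithTop I)) :
      Rel ⟨some a, D.k b n q⟩ ⟨none, D.k' n q⟩

theorem agree {a b : I} {n : ℕ} (h : trunc a (D.F b n) = D.F a n) {c : I}
    (hc : c ≤ a) : D.F a n = (c : WithTop I) ↔ D.F b n = (c : WithTop I) := by
  constructor
  · intro h1
    rw [h1] at h
    have h2 : D.F b n ≤ a := le_of_trunc_ne_top (by rw [h]; exact WithTop.coe_ne_top)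
    rw [trunc_of_le h2] at h
    exact h
  · intro h1
    rw [h1, trunc_of_le (by exact_mod_cast hc)] at h
    exact h.symm

theorem finite_disagree (a b : I) :
    {t : I × ℕ | t.1 ≤ a ∧ t.1 ≤ b ∧
      ¬ (D.F a t.2 = (t.1 : WithTop I) ↔ D.F b t.2 = (t.1 : WithTop I))}.Finite := by
  wlog hab : a ≤ b generalizing a b
  · have := this b a (le_of_not_ge hab)
    refine this.subset ?_
    rintro t ⟨h1, h2, h3⟩
    exact ⟨h2, h1, fun h => h3 h.symm⟩
  have hco : {n | trunc a (D.F b n) ≠ D.F a n}.Finite := D.coh a b hab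
  have key : ∀ n, {c : I | D.F a n = (c : WithTop I) ∨ D.F b n = (c : WithTop I)}.Finite := by
    intro n
    have h1 : ∀ x : WithTop I, {c : I | x = (c : WithTop I)}.Finite := by
      intro x
      refine Set.Subsingleton.finite ?_
      intro c hc d hd
      have hc' : x = (c : WithTop I) := hc
      have hd' : x = (d : WithTop I) := hd
      rw [hc'] at hd'
      exact_mod_cast hd'
    exact (h1 (D.F a n)).union (h1 (D.F b n))
  have hfin : (⋃ n ∈ {n | trunc a (D.F b n) ≠ D.F a n},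
      (fun c => (c, n)) '' {c : I | D.F a n = (c : WithTop I) ∨ D.F b n = (c : WithTop I)}).Finite :=
    hco.biUnion fun n _ => (key n).image _
  refine hfin.subset ?_
  rintro ⟨c, n⟩ ⟨h1, h2, h3⟩
  simp only [mem_iUnion]
  refine ⟨n, ?_, c, ?_, rfl⟩
  · intro h
    exact h3 (D.agree h h1)
  · by_contra hcon
    have hcon' : ¬ (D.F a n = (c : WithTop I) ∨ D.F b n = (c : WithTop I)) := hcon
    rw [not_or] at hcon'
    exact h3 ⟨fun h => absurd h hcon'.1, fun h => absurd h hcon'.2⟩

theorem rel_loc [Nonempty Q] : IsLocHomeoRel D.Rel := by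
  intro p q h
  cases h with
  | same a b p ha hb h =>
    set S := {t : I × ℕ | t.1 ≤ a ∧ t.1 ≤ b ∧
      ¬ (D.F a t.2 = (t.1 : WithTop I) ↔ D.F b t.2 = (t.1 : WithTop I))} with hS
    have hSfin : S.Finite := D.finite_disagree a b
    set O : Set Y := {y | D.lev y ≤ a} ∩ {y | D.lev y ≤ b} ∩ (⋃ t ∈ S, D.C t.1 t.2)ᶜ with hO
    have hOopen : IsOpen O := by
      refine ((D.open_lev a).inter (D.open_lev b)).inter ?_
      rw [isOpen_compl_iff]
      exact hSfin.isClosed_biUnion fun t _ => D.C_closed t.1 t.2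
    have hOmem : ∀ y, D.lev y ≤ a → D.lev y ≤ b →
        (∀ c n, y ∈ D.C c n → (D.F a n = (c : WithTop I) ↔ D.F b n = (c : WithTop I))) → y ∈ O := by
      intro y h1 h2 h3
      refine ⟨⟨h1, h2⟩, ?_⟩
      intro hcon
      simp only [mem_iUnion] at hcon
      obtain ⟨t, ht, hyt⟩ := hcon
      exact ht.2.2 (h3 t.1 t.2 hyt)
    have hOprop : ∀ y ∈ O, D.lev y ≤ a ∧ D.lev y ≤ b ∧
        (∀ c n, y ∈ D.C c n → (D.F a n = (c : WithTop I) ↔ D.F b n = (c : WithTop I))) := by
      rintro y ⟨⟨h1, h2⟩, h3⟩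
      refine ⟨h1, h2, ?_⟩
      intro c n hy
      by_contra hcon
      apply h3
      have hl := D.C_lev c n y hy
      simp only [mem_iUnion]
      refine ⟨(c, n), ⟨?_, ?_, hcon⟩, hy⟩
      · rw [← hl]; exact h1
      · rw [← hl]; exact h2
    refine ⟨OpenPartialHomeomorph.ofSet O hOopen, ?_, ?_, ?_⟩
    · simpa using hOmem p ha hb h
    · simp
    · intro x hx
      have hx' : x ∈ O := by simpa using hx
      obtain ⟨h1, h2, h3⟩ := hOprop x hx'
      simpa using Rel.same (D := D) a b x h1 h2 h3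
  | glue a b n q h =>
    obtain ⟨e, he1, he2⟩ := exists_transition (D.k_emb b n) (D.k'_emb n)
    refine ⟨e, ?_, he2 q, ?_⟩
    · rw [he1]; exact ⟨q, rfl⟩
    · intro x hx
      rw [he1] at hx
      obtain ⟨r, rfl⟩ := hx
      rw [he2]
      exact Rel.glue a b n r h

open Classical in
/-- Decode the rectangle of a point. -/
noncomputable def dec (y : Y) : Option (I × ℕ × Q) :=
  if h : ∃ t : I × ℕ × Q, D.k t.1 t.2.1 t.2.2 = y then some h.choose else none

theorem dec_k (b : I) (n : ℕ) (q : Q) : D.dec (D.k b n q) = some (b, n, q) := by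
  have hex : ∃ t : I × ℕ × Q, D.k t.1 t.2.1 t.2.2 = D.k b n q := ⟨(b, n, q), rfl⟩
  simp only [dec, dif_pos hex]
  have h1 := hex.choose_spec
  obtain ⟨h2, h3⟩ := D.C_disj _ _ b n (D.k b n q)
    (by rw [← h1]; exact D.k_mem _ _ _) (D.k_mem b n q)
  congr 1
  rw [h2, h3] at h1
  have h4 := (D.k_emb b n).injective h1
  exact Prod.ext h2 (Prod.ext h3 h4)

theorem dec_none {y : Y} (h : ∀ b n, y ∉ D.C b n) : D.dec y = none := by
  have : ¬ ∃ t : I × ℕ × Q, D.k t.1 t.2.1 t.2.2 = y := by
    rintro ⟨t, rfl⟩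
    exact h _ _ (D.k_mem _ _ _)
  simp only [dec, dif_neg this]

theorem dec_some {y : Y} {b : I} {n : ℕ} {q : Q} (h : D.dec y = some (b, n, q)) :
    D.k b n q = y := by
  by_cases hex : ∃ t : I × ℕ × Q, D.k t.1 t.2.1 t.2.2 = y
  · simp only [dec, dif_pos hex, Option.some.injEq] at h
    have := hex.choose_spec
    rw [h] at this
    exact this
  · simp only [dec, dif_neg hex] at h
    exact absurd h (by simp)

open Classical in
/-- The invariant. -/
noncomputable def inv : (Σ _ : Option I, Y) → Y ⊕ Y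
  | ⟨none, y⟩ => Sum.inl y
  | ⟨some a, y⟩ =>
    match D.dec y with
    | none => Sum.inr y
    | some (b, n, q) => if D.F a n = (b : WithTop I) then Sum.inl (D.k' n q) else Sum.inr y

theorem inv_none (y : Y) : D.inv ⟨none, y⟩ = Sum.inl y := rfl

theorem inv_k_pos {a b : I} {n : ℕ} {q : Q} (h : D.F a n = (b : WithTop I)) :
    D.inv ⟨some a, D.k b n q⟩ = Sum.inl (D.k' n q) := by
  simp only [inv, dec_k, if_pos h]

theorem inv_k_neg {a b : I} {n : ℕ} {q : Q} (h : ¬ D.F a n = (b : WithTop I)) :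
    D.inv ⟨some a, D.k b n q⟩ = Sum.inr (D.k b n q) := by
  simp only [inv, dec_k, if_neg h]

theorem inv_dec_none {a : I} {y : Y} (h : D.dec y = none) :
    D.inv ⟨some a, y⟩ = Sum.inr y := by
  simp only [inv, h]

theorem inv_cases (a : I) (y : Y) :
    (∃ b n q, D.k b n q = y ∧ D.F a n = (b : WithTop I) ∧ D.inv ⟨some a, y⟩ = Sum.inl (D.k' n q)) ∨
      D.inv ⟨some a, y⟩ = Sum.inr y := by
  rcases hd : D.dec y with _ | ⟨b, n, q⟩
  · right; exact D.inv_dec_none hd
  · have := D.dec_some hd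
    subst this
    by_cases h : D.F a n = (b : WithTop I)
    · left; exact ⟨b, n, q, rfl, h, D.inv_k_pos h⟩
    · right; exact D.inv_k_neg h

theorem inv_inv : ∀ p q, D.Rel p q → D.inv p = D.inv q := by
  intro p q h
  cases h with
  | same a b p ha hb h =>
    rcases hd : D.dec p with _ | ⟨c, n, q⟩
    · rw [D.inv_dec_none hd, D.inv_dec_none hd]
    · have := D.dec_some hd
      subst this
      have hiff := h c n (D.k_mem c n q)
      by_cases h1 : D.F a n = (c : WithTop I)
      · rw [D.inv_k_pos h1, D.inv_k_pos (hiff.1 h1)]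
      · rw [D.inv_k_neg h1, D.inv_k_neg (fun h2 => h1 (hiff.2 h2))]
  | glue a b n q h =>
    rw [D.inv_k_pos h, D.inv_none]

theorem isOpenEmbedding [Nonempty Q] (j : Option I) : IsOpenEmbedding (glueMap D.Rel j) := by
  refine isOpenEmbedding_glueMap D.rel_loc D.inv D.inv_inv j ?_
  intro x y hxy
  simp only at hxy
  rcases j with _ | a
  · simpa [inv_none] using hxy
  · rcases D.inv_cases a x with ⟨b, n, q, h1, h2, h3⟩ | h1 <;>
      rcases D.inv_cases a y with ⟨b', n', q', h1', h2', h3'⟩ | h1'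
    · rw [h3, h3'] at hxy
      have h4 := Sum.inl_injective hxy
      have h5 := D.k'_disj _ _ _ _ h4
      subst h5
      have h6 := (D.k'_emb n).injective h4
      rw [h2] at h2'
      have h7 : b = b' := by exact_mod_cast h2'
      rw [← h1, ← h1', h6, h7]
    · rw [h3, h1'] at hxy
      exact absurd hxy (by simp)
    · rw [h1, h3'] at hxy
      exact absurd hxy (by simp)
    · rw [h1, h1'] at hxy
      exact Sum.inr_injective hxy

/-- The space. -/
abbrev Space : Type := Quot D.Rel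

theorem connected [Nonempty Q] [ConnectedSpace Y] : ConnectedSpace D.Space := by
  obtain ⟨q₀⟩ := (inferInstance : Nonempty Q)
  obtain ⟨y₀⟩ := (inferInstance : Nonempty Y)
  have hcon : ∀ j, IsConnected (range (glueMap D.Rel j)) := fun j =>
    isConnected_range (continuous_glueMap D.Rel j)
  set C := connectedComponent (glueMap D.Rel none y₀) with hC
  have h0 : range (glueMap D.Rel none) ⊆ C :=
    (hcon none).isPreconnected.subset_connectedComponent ⟨y₀, rfl⟩
  have huniv : C = univ := by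
    rw [eq_univ_iff_forall]
    intro m
    obtain ⟨j, y, rfl⟩ := glueMap_surj D.Rel m
    rcases j with _ | a
    · exact h0 ⟨y, rfl⟩
    · obtain ⟨n, hn⟩ := ((D.good a).1 a le_rfl).nonempty
      have hn' : D.F a n = (a : WithTop I) := hn
      have hpt : glueMap D.Rel (some a) (D.k a n q₀) = glueMap D.Rel none (D.k' n q₀) :=
        Quot.sound (Rel.glue a a n q₀ hn')
      have hmem : glueMap D.Rel (some a) (D.k a n q₀) ∈ C := by
        rw [hpt]; exact h0 ⟨_, rfl⟩
      have := (hcon (some a)).isPreconnected.subset_connectedComponent ⟨D.k a n q₀, rfl⟩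
      rw [← connectedComponent_eq hmem] at this
      exact this ⟨y, rfl⟩
  rw [connectedSpace_iff_univ, ← huniv]
  exact isConnected_connectedComponent

/-- A curve avoiding the rectangles is embedded. -/
theorem axis_embedding [Nonempty Q] {L : Type*} [TopologicalSpace L] (s : L → Y)
    (hs : IsEmbedding s) (hsC : ∀ x b n, s x ∉ D.C b n) :
    IsEmbedding (fun x => glueMap D.Rel (some (D.lev (s x))) (s x)) := by
  set S : L → D.Space := fun x => glueMap D.Rel (some (D.lev (s x))) (s x) with hS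
  have hinv : ∀ (a : I) (x : L), D.inv ⟨some a, s x⟩ = Sum.inr (s x) := fun a x =>
    D.inv_dec_none (D.dec_none (hsC x))
  have heq : ∀ (a b : I) (x : L), D.lev (s x) ≤ a → D.lev (s x) ≤ b →
      glueMap D.Rel (some a) (s x) = glueMap D.Rel (some b) (s x) := by
    intro a b x ha hb
    exact Quot.sound (Rel.same a b (s x) ha hb (fun c n h => absurd h (hsC x c n)))
  have hinj : Function.Injective S := by
    intro x y hxy
    have h1 := congrArg (Quot.lift D.inv D.inv_inv) hxy
    have h2 : D.inv ⟨some (D.lev (s x)), s x⟩ = D.inv ⟨some (D.lev (s y)), s y⟩ := h1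
    rw [hinv, hinv] at h2
    exact hs.injective (Sum.inr_injective h2)
  refine ⟨?_, hinj⟩
  rw [isInducing_iff_nhds]
  intro x
  set a := D.lev (s x) with ha
  have hlocal : S =ᶠ[𝓝 x] fun x' => glueMap D.Rel (some a) (s x') := by
    have h1 : {y | D.lev y ≤ a} ∈ 𝓝 (s x) := (D.open_lev a).mem_nhds (by simp [ha])
    have h2 := hs.continuous.continuousAt.preimage_mem_nhds h1
    filter_upwards [h2] with x' hx'
    exact heq _ _ x' le_rfl hx'
  have hcont : ContinuousAt S x := by
    rw [continuousAt_congr hlocal]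
    exact ((continuous_glueMap D.Rel (some a)).comp hs.continuous).continuousAt
  apply le_antisymm
  · exact hcont.le_comap
  · intro G hG
    rw [hs.nhds_eq_comap, Filter.mem_comap] at hG
    obtain ⟨O, hO, hOG⟩ := hG
    rw [mem_nhds_iff] at hO
    obtain ⟨O', hO'O, hO'open, hxO'⟩ := hO
    rw [Filter.mem_comap]
    refine ⟨glueMap D.Rel (some a) '' (O' ∩ {y | D.lev y ≤ a}), ?_, ?_⟩
    · refine IsOpen.mem_nhds ?_ ⟨s x, ⟨hxO', by simp [ha]⟩, rfl⟩
      exact isOpenMap_glueMap D.rel_loc (some a) _ (hO'open.inter (D.open_lev a))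
    · rintro x' ⟨p, ⟨hp1, hp2⟩, hp3⟩
      apply hOG
      apply hO'O
      have h1 := congrArg (Quot.lift D.inv D.inv_inv) hp3
      have h2 : D.inv ⟨some a, p⟩ = D.inv ⟨some (D.lev (s x')), s x'⟩ := h1
      rw [hinv] at h2
      rcases D.inv_cases a p with ⟨b, n, q, _, _, h3⟩ | h3
      · rw [h3] at h2
        exact absurd h2 (by simp)
      · rw [h3] at h2
        have := Sum.inr_injective h2
        rw [← this]
        exact hp1

/-- The points of the curve are not separated from `z`. -/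
theorem axis_nonsep [Nonempty Q] (y z : Y)
    (hyz : ∀ V ∈ 𝓝 y, ∀ U ∈ 𝓝 z, ∃ N : ℕ, ∀ n ≥ N, ∃ q, D.k (D.lev y) n q ∈ V ∧ D.k' n q ∈ U)
    (V U : Set D.Space) (hV : IsOpen V) (hU : IsOpen U)
    (hyV : glueMap D.Rel (some (D.lev y)) y ∈ V) (hzU : glueMap D.Rel none z ∈ U) :
    (V ∩ U).Nonempty := by
  have h1 : glueMap D.Rel (some (D.lev y)) ⁻¹' V ∈ 𝓝 y :=
    (hV.preimage (continuous_glueMap D.Rel _)).mem_nhds hyV
  have h2 : glueMap D.Rel none ⁻¹' U ∈ 𝓝 z :=
    (hU.preimage (continuous_glueMap D.Rel _)).mem_nhds hzU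
  obtain ⟨N, hN⟩ := hyz _ h1 _ h2
  have hinf := (D.good (D.lev y)).1 (D.lev y) le_rfl
  obtain ⟨n, hn, hnN⟩ := hinf.exists_gt N
  obtain ⟨q, hq1, hq2⟩ := hN n hnN.le
  have hn' : D.F (D.lev y) n = (D.lev y : WithTop I) := hn
  have hpt : glueMap D.Rel (some (D.lev y)) (D.k (D.lev y) n q) = glueMap D.Rel none (D.k' n q) :=
    Quot.sound (Rel.glue _ _ n q hn')
  refine ⟨glueMap D.Rel none (D.k' n q), ?_, hq2⟩
  rw [← hpt]
  exact hq1

theorem axis_ne (y z : Y) (hy : ∀ b n, y ∉ D.C b n) (a : I) :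
    glueMap D.Rel (some a) y ≠ glueMap D.Rel none z := by
  intro h
  have h1 := congrArg (Quot.lift D.inv D.inv_inv) h
  have h2 : D.inv ⟨some a, y⟩ = D.inv ⟨none, z⟩ := h1
  rw [D.inv_dec_none (D.dec_none hy), inv_none] at h2
  exact absurd h2 (by simp)

end CohData

end Pool.Agent.Helper42
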