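import Mathlib

set_option autoImplicit false

namespace Pool.Agent.Helper42

open Topology Set

/-- `I × [0,1)` with the lexicographic order. -/
def LR (I : Type) : Type := I ×ₗ Set.Ico (0 : ℝ) 1

namespace LR

variable {I : Type} [LinearOrder I]

noncomputable instance : LinearOrder (LR I) :=
  inferInstanceAs (LinearOrder (I ×ₗ Set.Ico (0 : ℝ) 1))

/-- The order topology. -/
noncomputable instance : TopologicalSpace (LR I) := Preorder.topology (LR I)

instance : OrderTopology (LR I) := ⟨rfl⟩

/-- The point `(β, t)`. -/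
def mk (β : I) (t : ℝ) (ht : t ∈ Ico (0 : ℝ) 1) : LR I := toLex (β, ⟨t, ht⟩)

/-- First coordinate. -/
def lev (x : LR I) : I := (ofLex (x : I ×ₗ Set.Ico (0 : ℝ) 1)).1

/-- Second coordinate. -/
def pos (x : LR I) : ℝ := ((ofLex (x : I ×ₗ Set.Ico (0 : ℝ) 1)).2 : ℝ)

omit [LinearOrder I] in
@[simp] theorem lev_mk (β : I) (t : ℝ) (ht) : lev (mk β t ht) = β := rfl

omit [LinearOrder I] in
@[simp] theorem pos_mk (β : I) (t : ℝ) (ht) : pos (mk β t ht) = t := rfl

omit [LinearOrder I] in
theorem pos_mem (x : LR I) : pos x ∈ Ico (0 : ℝ) 1 :=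
  (ofLex (x : I ×ₗ Set.Ico (0 : ℝ) 1)).2.2

theorem lt_iff {x y : LR I} : x < y ↔ lev x < lev y ∨ lev x = lev y ∧ pos x < pos y :=
  Prod.Lex.lt_iff (x := (x : I ×ₗ Set.Ico (0 : ℝ) 1)) (y := y)

theorem le_iff {x y : LR I} : x ≤ y ↔ lev x < lev y ∨ lev x = lev y ∧ pos x ≤ pos y :=
  Prod.Lex.le_iff (x := (x : I ×ₗ Set.Ico (0 : ℝ) 1)) (y := y)

omit [LinearOrder I] in
theorem ext {x y : LR I} (h1 : lev x = lev y) (h2 : pos x = pos y) : x = y := by
  apply ofLex.injective
  exact Prod.ext h1 (Subtype.ext h2)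

omit [LinearOrder I] in
theorem mk_eta (x : LR I) : mk (lev x) (pos x) (pos_mem x) = x := ext rfl rfl

theorem lev_mono {x y : LR I} (h : x ≤ y) : lev x ≤ lev y := by
  rcases le_iff.1 h with h | h
  · exact h.le
  · exact h.1.le

/-- For every point there is a bigger point on the same level. -/
theorem exists_gt_same (x : LR I) : ∃ y, x < y ∧ lev y = lev x := by
  have h := pos_mem x
  refine ⟨mk (lev x) ((pos x + 1) / 2) ⟨by linarith [h.1], by linarith [h.2]⟩, ?_, rfl⟩
  rw [lt_iff]
  right
  exact ⟨rfl, by simp; linarith [h.2]⟩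

instance : NoMaxOrder (LR I) := ⟨fun x => by
  obtain ⟨y, hy, _⟩ := exists_gt_same x
  exact ⟨y, hy⟩⟩

theorem isOpen_lev_le (a : I) : IsOpen {x : LR I | lev x ≤ a} := by
  rw [isOpen_iff_forall_mem_open]
  intro x hx
  obtain ⟨y, hy, hyl⟩ := exists_gt_same x
  refine ⟨Iio y, ?_, isOpen_Iio, hy⟩
  intro z hz
  have := lev_mono (le_of_lt (show z < y from hz))
  rw [hyl] at this
  exact this.trans hx

section J

variable (w : I → ℝ)

/-- partial sums -/
noncomputable def T (b : I) : ℝ := ∑' c, (Iio b).indicator w c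

variable {w}

theorem T_add (hs : Summable w) (b : I) :
    T w b + w b = ∑' c, (Iic b).indicator w c := by
  classical
  have h1 : (Iic b).indicator w = fun c => (Iio b).indicator w c + (Pi.single b (w b) : I → ℝ) c := by
    funext c
    by_cases hc : c = b
    · subst hc; simp
    · by_cases hcb : c < b
      · simp [hcb, hcb.le, hc]
      · have : ¬ c ≤ b := fun h => hcb (lt_of_le_of_ne h hc)
        simp [hcb, this, hc]
  rw [h1, (hs.indicator _).tsum_add (hasSum_pi_single b (w b)).summable, tsum_pi_single]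
  rfl

theorem T_step (hw : ∀ c, 0 ≤ w c) (hs : Summable w) {b c : I} (h : b < c) :
    T w b + w b ≤ T w c := by
  rw [T_add hs]
  refine (hs.indicator _).tsum_le_tsum ?_ (hs.indicator _)
  intro d
  refine indicator_le_indicator_of_subset ?_ hw d
  exact fun x hx => lt_of_le_of_lt hx h

/-- The height function. -/
noncomputable def J (w : I → ℝ) (x : LR I) : ℝ := T w (lev x) + pos x * w (lev x)

theorem J_strictMonoOn (hw : ∀ c, 0 ≤ w c) (hs : Summable w) {a : I} (ha : ∀ c ≤ a, 0 < w c) :
    StrictMonoOn (J w) {x | lev x ≤ a} := by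
  intro x hx y hy hxy
  have hpx := pos_mem x
  have hpy := pos_mem y
  have hwx := ha _ hx
  have hwy := ha _ hy
  rcases lt_iff.1 hxy with h | ⟨h1, h2⟩
  · have h3 := T_step hw hs h
    simp only [J]
    nlinarith [mul_nonneg hpy.1 hwy.le, mul_lt_mul_of_pos_right hpx.2 hwx]
  · simp only [J]
    rw [h1]
    have := mul_lt_mul_of_pos_right h2 (ha _ hy)
    linarith

theorem exists_J_eq [WellFoundedLT I] (hw : ∀ c, 0 ≤ w c) (hs : Summable w) {a : I}
    (ha : ∀ c ≤ a, 0 < w c) {y : ℝ} (hy0 : 0 ≤ y) (hy1 : y < T w a + w a) :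
    ∃ x : LR I, lev x ≤ a ∧ J w x = y := by
  classical
  have hne : {c : I | y < T w c + w c}.Nonempty := ⟨a, hy1⟩
  set b := wellFounded_lt.min {c : I | y < T w c + w c} hne with hb
  have hb1 : y < T w b + w b := wellFounded_lt.min_mem {c : I | y < T w c + w c} hne
  have hb2 : ∀ c, c < b → T w c + w c ≤ y := by
    intro c hc
    by_contra hcon
    exact wellFounded_lt.not_lt_min {c : I | y < T w c + w c} (not_le.1 hcon) hc
  have hba : b ≤ a := by
    by_contra hcon
    have := hb2 a (not_le.1 hcon)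
    linarith
  have hTb : T w b ≤ y := by
    refine (hs.indicator _).tsum_le_of_sum_le ?_
    intro s
    rcases (s.filter (· < b)).eq_empty_or_nonempty with hemp | hne'
    · have : ∑ i ∈ s, (Iio b).indicator w i = 0 := by
        refine Finset.sum_eq_zero ?_
        intro i hi
        by_contra hcon
        have : i ∈ s.filter (· < b) := by
          rw [Finset.mem_filter]
          refine ⟨hi, ?_⟩
          by_contra hib
          exact hcon (indicator_of_notMem (by simpa using hib) w)
        rw [hemp] at this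
        simp at this
      rw [this]; exact hy0
    · set d := (s.filter (· < b)).max' hne' with hd
      have hdmem := Finset.max'_mem _ hne'
      rw [← hd, Finset.mem_filter] at hdmem
      calc ∑ i ∈ s, (Iio b).indicator w i ≤ ∑ i ∈ s, (Iic d).indicator w i := by
            refine Finset.sum_le_sum ?_
            intro i hi
            by_cases hib : i < b
            · have hid : i ≤ d := Finset.le_max' _ _ (by rw [Finset.mem_filter]; exact ⟨hi, hib⟩)
              simp [hib, hid]
            · simp only [mem_Iio, hib, not_false_eq_true, indicator_of_notMem]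
              exact indicator_nonneg (fun j _ => hw j) i
        _ ≤ ∑' i, (Iic d).indicator w i :=
            (hs.indicator _).sum_le_tsum s (fun i _ => indicator_nonneg (fun j _ => hw j) i)
        _ = T w d + w d := (T_add hs d).symm
        _ ≤ y := hb2 d hdmem.2
  have hwb := ha b hba
  refine ⟨mk b ((y - T w b) / w b) ⟨div_nonneg (by linarith) hwb.le, ?_⟩, hba, ?_⟩
  · rw [div_lt_one hwb]; linarith
  · simp only [J, lev_mk, pos_mk]
    field_simp
    ring

end J

/-- Weights. -/
theorem exists_weights (hI : ∀ a : I, (Iio a).Countable) (a : I) :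
    ∃ w : I → ℝ, (∀ c, 0 ≤ w c) ∧ Summable w ∧ ∀ c ≤ a, 0 < w c := by
  classical
  have hc : (Iic a).Countable := by
    rw [← Iio_insert]
    exact (hI a).insert a
  obtain ⟨f, hf⟩ := Set.countable_iff_exists_injective.1 hc
  let w : I → ℝ := fun c => if h : c ≤ a then (1 / 2 : ℝ) ^ f ⟨c, h⟩ else 0
  refine ⟨w, ?_, ?_, ?_⟩
  · intro c
    by_cases h : c ≤ a
    · simp only [w, dif_pos h]; positivity
    · simp only [w, dif_neg h]; exact le_rfl
  · have h1 : Summable (fun n : ℕ => (1 / 2 : ℝ) ^ n) := summable_geometric_two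
    have h2 : Summable (fun c : Iic a => (1 / 2 : ℝ) ^ f c) := h1.comp_injective hf
    have h3 : Summable (w ∘ (Subtype.val : Iic a → I)) := by
      refine h2.congr ?_
      rintro ⟨c, hc⟩
      have hc' : c ≤ a := hc
      simp [w, hc']
    refine (Function.Injective.summable_iff Subtype.val_injective ?_).1 h3
    intro x hx
    have : ¬ x ≤ a := by
      intro h
      exact hx ⟨⟨x, h⟩, rfl⟩
    simp [w, this]
  · intro c hca
    simp only [w, dif_pos hca]
    positivity

/-- An open interval of `ℝ` is homeomorphic to `ℝ`. -/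
theorem nonempty_homeo_Ioo {a b : ℝ} (hab : a < b) : Nonempty (Ioo a b ≃ₜ ℝ) := by
  have e1 : ℝ ≃o Ioo (-1 : ℝ) 1 := orderIsoIooNegOneOne ℝ
  have e2 : Ioo (-1 : ℝ) 1 ≃ₜ ℝ := e1.symm.toHomeomorph
  let g : ℝ ≃ₜ ℝ :=
    (Homeomorph.mulLeft₀ (2 / (b - a)) (by
      have : b - a ≠ 0 := by linarith [hab]
      positivity)).trans (Homeomorph.addRight (-(a + b) / (b - a)))
  have hg : ∀ x, g x = 2 / (b - a) * x + -(a + b) / (b - a) := fun x => rfl
  have hpos : 0 < b - a := by linarith
  have himg : ∀ x, x ∈ Ioo a b ↔ g x ∈ Ioo (-1 : ℝ) 1 := by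
    intro x
    rw [hg]
    have h1 : 2 / (b - a) * x + -(a + b) / (b - a) = (2 * x - (a + b)) / (b - a) := by
      field_simp
      ring
    rw [h1, mem_Ioo, mem_Ioo, lt_div_iff₀ hpos, div_lt_iff₀ hpos]
    constructor
    · rintro ⟨h2, h3⟩; constructor <;> linarith
    · rintro ⟨h2, h3⟩; constructor <;> linarith
  exact ⟨(g.subtype himg).trans e2⟩

theorem nonempty_homeo_of_lt [WellFoundedLT I] (hI : ∀ a : I, (Iio a).Countable) {a b : LR I}
    (hab : a < b) : Nonempty (Ioo a b ≃ₜ ℝ) := by
  obtain ⟨w, hw, hs, hpos⟩ := exists_weights hI (lev b)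
  have hmono := J_strictMonoOn hw hs hpos
  have hsub : Ioo a b ⊆ {x | lev x ≤ lev b} := fun x hx => lev_mono hx.2.le
  have ha : a ∈ {x | lev x ≤ lev b} := lev_mono hab.le
  have hb : b ∈ {x | lev x ≤ lev b} := le_refl _
  have himg : J w '' Ioo a b = Ioo (J w a) (J w b) := by
    apply Subset.antisymm
    · rintro _ ⟨x, hx, rfl⟩
      exact ⟨hmono ha (hsub hx) hx.1, hmono (hsub hx) hb hx.2⟩
    · rintro y ⟨hy1, hy2⟩
      have hJa : 0 ≤ J w a := by
        simp only [J, T]
        have h1 := mul_nonneg (pos_mem a).1 (hw (lev a))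
        have h2 : 0 ≤ ∑' c, (Iio (lev a)).indicator w c :=
          tsum_nonneg (fun i => indicator_nonneg (fun j _ => hw j) i)
        linarith
      have hJb : J w b < T w (lev b) + w (lev b) := by
        simp only [J]
        have := mul_lt_mul_of_pos_right (pos_mem b).2 (hpos (lev b) le_rfl)
        linarith
      obtain ⟨x, hx, rfl⟩ := exists_J_eq hw hs hpos (hJa.trans hy1.le) (hy2.trans hJb)
      exact ⟨x, ⟨(hmono.lt_iff_lt ha hx).1 hy1, (hmono.lt_iff_lt hx hb).1 hy2⟩, rfl⟩
  have e1 : Ioo a b ≃o J w '' Ioo a b := (hmono.mono hsub).orderIso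
  rw [himg] at e1
  obtain ⟨e2⟩ := nonempty_homeo_Ioo (hmono ha hb hab)
  exact ⟨e1.toHomeomorph.trans e2⟩

end LR

end Pool.Agent.Helper42
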