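import Mathlib
import Pool.Agent.Helper42.LongRay
import Pool.Agent.Helper42.CohGlue

set_option autoImplicit false

namespace Pool.Agent.Helper42

open Topology Set

/-- The long ray without its initial point. -/
abbrev LRo (I : Type) [LinearOrder I] : Type := {x : LR I // ∃ y, y < x}

section LRo

variable {I : Type} [LinearOrder I]

theorem isOpen_LRo : IsOpen {x : LR I | ∃ y, y < x} := by
  have : {x : LR I | ∃ y, y < x} = ⋃ y, Ioi y := by
    ext x; simp
  rw [this]
  exact isOpen_iUnion fun y => isOpen_Ioi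

theorem isOpenEmbedding_val : IsOpenEmbedding (Subtype.val : LRo I → LR I) :=
  isOpen_LRo.isOpenEmbedding_subtypeVal

/-- Every point has a neighbourhood homeomorphic to `ℝ`. -/
theorem LRo_locally [WellFoundedLT I] (hI : ∀ a : I, (Iio a).Countable) (x : LRo I) :
    ∃ f : ℝ → LRo I, IsOpenEmbedding f ∧ x ∈ range f := by
  obtain ⟨x, a, hax⟩ := x
  obtain ⟨b, hxb⟩ := exists_gt x
  obtain ⟨e⟩ := LR.nonempty_homeo_of_lt hI (hax.trans hxb)
  let f : ℝ → LRo I := fun t => ⟨(e.symm t : LR I), a, (e.symm t).2.1⟩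
  have hf : IsOpenEmbedding (Subtype.val ∘ f) :=
    (isOpen_Ioo.isOpenEmbedding_subtypeVal (X := LR I) (s := Ioo a b)).comp
      e.symm.isOpenEmbedding
  refine ⟨f, IsOpenEmbedding.of_comp _ isOpenEmbedding_val hf, e ⟨x, hax, hxb⟩, ?_⟩
  simp [f]

theorem LRo_connected [WellFoundedLT I] [Nonempty I] (hI : ∀ a : I, (Iio a).Countable) :
    ConnectedSpace (LRo I) := by
  have hne : Nonempty (LRo I) := by
    obtain ⟨i⟩ := (inferInstance : Nonempty I)
    obtain ⟨y, hy⟩ := exists_gt (LR.mk i 0 ⟨le_rfl, one_pos⟩)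
    exact ⟨⟨y, _, hy⟩⟩
  have hpre : IsPreconnected (univ : Set (LRo I)) := by
    refine isPreconnected_of_forall_pair ?_
    have key : ∀ x y : LRo I, x ≤ y → ∃ t ⊆ (univ : Set (LRo I)), x ∈ t ∧ y ∈ t ∧
        IsPreconnected t := by
      rintro ⟨x, a, hax⟩ ⟨y, c, hcy⟩ hxy
      have hxy' : x ≤ y := hxy
      obtain ⟨b, hyb⟩ := exists_gt y
      obtain ⟨e⟩ := LR.nonempty_homeo_of_lt hI ((hax.trans_le hxy').trans hyb)
      let f : ℝ → LRo I := fun t => ⟨(e.symm t : LR I), a, (e.symm t).2.1⟩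
      have hf : IsOpenEmbedding (Subtype.val ∘ f) :=
        (isOpen_Ioo.isOpenEmbedding_subtypeVal (X := LR I) (s := Ioo a b)).comp
          e.symm.isOpenEmbedding
      have hf' := IsOpenEmbedding.of_comp _ isOpenEmbedding_val hf
      refine ⟨range f, subset_univ _, ⟨e ⟨x, hax, hxy'.trans_lt hyb⟩, by simp [f]⟩,
        ⟨e ⟨y, hax.trans_le hxy', hyb⟩, by simp [f]⟩, isPreconnected_range hf'.continuous⟩
    intro x _ y _
    rcases le_total x y with h | h
    · exact key x y h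
    · obtain ⟨t, h1, h2, h3, h4⟩ := key y x h
      exact ⟨t, h1, h3, h2, h4⟩
  exact { toPreconnectedSpace := ⟨hpre⟩, toNonempty := hne }

/-- Level of a point. -/
def LRo.lev (x : LRo I) : I := LR.lev x.1

theorem LRo_isOpen_lev (a : I) : IsOpen {x : LRo I | x.lev ≤ a} :=
  (LR.isOpen_lev_le a).preimage continuous_subtype_val

/-- The point `(β, t)` for `0 < t < 1`. -/
def eb (b : I) (t : Ioo (0 : ℝ) 1) : LRo I :=
  ⟨LR.mk b t ⟨t.2.1.le, t.2.2⟩, LR.mk b 0 ⟨le_rfl, one_pos⟩, by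
    rw [LR.lt_iff]; right; exact ⟨rfl, by simpa using t.2.1⟩⟩

@[simp] theorem eb_lev (b : I) (t : Ioo (0 : ℝ) 1) : (eb b t).lev = b := rfl

theorem eb_isOpenEmbedding (b : I) : IsOpenEmbedding (eb b : Ioo (0 : ℝ) 1 → LRo I) := by
  refine IsOpenEmbedding.of_comp _ isOpenEmbedding_val ?_
  set f : Ioo (0 : ℝ) 1 → LR I := Subtype.val ∘ eb b with hf
  have hmono : StrictMono f := by
    intro s t hst
    rw [LR.lt_iff]
    right
    exact ⟨rfl, hst⟩
  have hrange : range f = {x : LR I | LR.lev x = b ∧ 0 < LR.pos x} := by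
    ext x
    constructor
    · rintro ⟨t, rfl⟩
      exact ⟨rfl, t.2.1⟩
    · rintro ⟨h1, h2⟩
      refine ⟨⟨LR.pos x, h2, (LR.pos_mem x).2⟩, ?_⟩
      exact LR.ext h1.symm rfl
  have hord : OrdConnected (range f) := by
    rw [hrange]
    refine ⟨?_⟩
    rintro x ⟨hx1, hx2⟩ y ⟨hy1, hy2⟩ z ⟨hz1, hz2⟩
    have h1 := LR.lev_mono hz1
    have h2 := LR.lev_mono hz2
    have h3 : LR.lev z = b := le_antisymm (h2.trans hy1.le) (hx1.ge.trans h1)
    refine ⟨h3, ?_⟩
    rcases LR.le_iff.1 hz1 with h | h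
    · rw [hx1, h3] at h; exact absurd h (lt_irrefl _)
    · exact hx2.trans_le h.2
  have hopen : IsOpen (range f) := by
    rw [hrange, isOpen_iff_forall_mem_open]
    rintro x ⟨hx1, hx2⟩
    have hx3 := (LR.pos_mem x).2
    refine ⟨Ioo (LR.mk b (LR.pos x / 2) ⟨by linarith, by linarith⟩)
      (LR.mk b ((LR.pos x + 1) / 2) ⟨by linarith, by linarith⟩), ?_, isOpen_Ioo, ?_⟩
    · rintro z ⟨hz1, hz2⟩
      have h1 := LR.lev_mono hz1.le
      have h2 := LR.lev_mono hz2.le
      simp only [LR.lev_mk] at h1 h2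
      have h3 : LR.lev z = b := le_antisymm h2 h1
      refine ⟨h3, ?_⟩
      rcases LR.lt_iff.1 hz1 with h | h
      · rw [LR.lev_mk, h3] at h; exact absurd h (lt_irrefl _)
      · have := h.2
        simp only [LR.pos_mk] at this
        linarith
    · constructor
      · rw [LR.lt_iff]; right
        exact ⟨by simp [hx1], by simp; linarith⟩
      · rw [LR.lt_iff]; right
        exact ⟨by simp [hx1], by simp; linarith⟩
  exact ⟨hmono.isEmbedding_of_ordConnected hord, hopen⟩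

/-- The closed long ray embeds in the open one. -/
theorem exists_closed_embedding [WellFoundedLT I] [Nonempty I] :
    ∃ j : LR I → LRo I, IsEmbedding j := by
  classical
  set i₀ : I := wellFounded_lt.min (univ : Set I) univ_nonempty with hi₀
  have hbot : ∀ i : I, i₀ ≤ i := fun i =>
    not_lt.1 (fun h => wellFounded_lt.not_lt_min (univ : Set I) (mem_univ i) h)
  let g : LR I → LR I := fun x =>
    if h : LR.lev x = i₀ then
      LR.mk i₀ ((LR.pos x + 1) / 2) ⟨by linarith [(LR.pos_mem x).1], by linarith [(LR.pos_mem x).2]⟩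
    else x
  have hg1 : ∀ x, LR.lev x = i₀ → LR.lev (g x) = i₀ ∧ LR.pos (g x) = (LR.pos x + 1) / 2 := by
    intro x h
    simp only [g, dif_pos h]
    exact ⟨rfl, rfl⟩
  have hg2 : ∀ x, LR.lev x ≠ i₀ → g x = x := by
    intro x h
    simp only [g, dif_neg h]
  have hglev : ∀ x, LR.lev (g x) = LR.lev x := by
    intro x
    by_cases h : LR.lev x = i₀
    · rw [(hg1 x h).1, h]
    · rw [hg2 x h]
  have hmono : StrictMono g := by
    intro x y hxy
    rw [LR.lt_iff, hglev, hglev]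
    rcases LR.lt_iff.1 hxy with h | ⟨h1, h2⟩
    · left; exact h
    · right
      refine ⟨h1, ?_⟩
      by_cases h : LR.lev x = i₀
      · rw [(hg1 x h).2, (hg1 y (h1 ▸ h)).2]; linarith
      · rw [hg2 x h, hg2 y (fun h' => h (h1.trans h'))]; exact h2
  have hrange : range g = Ici (LR.mk i₀ (1 / 2) ⟨by norm_num, by norm_num⟩) := by
    ext x
    rw [mem_Ici, LR.le_iff]
    simp only [LR.lev_mk, LR.pos_mk]
    constructor
    · rintro ⟨y, rfl⟩
      by_cases h : LR.lev y = i₀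
      · right
        rw [(hg1 y h).1, (hg1 y h).2]
        exact ⟨rfl, by linarith [(LR.pos_mem y).1]⟩
      · left
        rw [hg2 y h]
        exact lt_of_le_of_ne (hbot _) (Ne.symm h)
    · rintro (h | ⟨h1, h2⟩)
      · exact ⟨x, hg2 x (ne_of_gt h)⟩
      · refine ⟨LR.mk i₀ (2 * LR.pos x - 1) ⟨by linarith, by linarith [(LR.pos_mem x).2]⟩, ?_⟩
        have h3 := hg1 (LR.mk i₀ (2 * LR.pos x - 1)
          ⟨by linarith, by linarith [(LR.pos_mem x).2]⟩) rfl
        refine LR.ext (h3.1.trans h1) ?_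
        rw [h3.2]; simp
  have hpos : ∀ x, ∃ y, y < g x := by
    intro x
    refine ⟨LR.mk i₀ 0 ⟨le_rfl, one_pos⟩, ?_⟩
    have : g x ∈ Ici (LR.mk i₀ (1 / 2) ⟨by norm_num, by norm_num⟩) := by
      rw [← hrange]; exact ⟨x, rfl⟩
    refine lt_of_lt_of_le ?_ this
    rw [LR.lt_iff]; right
    exact ⟨rfl, by simp⟩
  have hemb : IsEmbedding g :=
    hmono.isEmbedding_of_ordConnected (by rw [hrange]; exact ordConnected_Ici)
  exact ⟨fun x => ⟨g x, hpos x⟩, IsEmbedding.of_comp
    (by exact hemb.continuous.subtype_mk hpos) continuous_subtype_val hemb⟩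

end LRo

/-- Affine self-embedding of the open unit interval. -/
def affI (c d : ℝ) (hc : 0 ≤ c) (hcd : c < d) (hd : d ≤ 1) (u : Ioo (0 : ℝ) 1) : Ioo (0 : ℝ) 1 :=
  ⟨c + (d - c) * u, by
    have h1 := u.2.1
    have h2 := u.2.2
    constructor
    · nlinarith [mul_pos (sub_pos.2 hcd) h1]
    · nlinarith [mul_lt_mul_of_pos_left h2 (sub_pos.2 hcd)]⟩

/-- Affine homeomorphism of the line. -/
noncomputable def affR (a b : ℝ) (hab : a < b) : ℝ ≃ₜ ℝ :=
  (Homeomorph.mulLeft₀ (b - a) (by linarith)).trans (Homeomorph.addLeft a)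

theorem affR_apply (a b : ℝ) (hab : a < b) (x : ℝ) : affR a b hab x = a + (b - a) * x := rfl

theorem affI_isOpenEmbedding (c d : ℝ) (hc : 0 ≤ c) (hcd : c < d) (hd : d ≤ 1) :
    IsOpenEmbedding (affI c d hc hcd hd) := by
  refine IsOpenEmbedding.of_comp _
    (isOpen_Ioo.isOpenEmbedding_subtypeVal (X := ℝ) (s := Ioo (0 : ℝ) 1)) ?_
  exact (affR c d hcd).isOpenEmbedding.comp
    (isOpen_Ioo.isOpenEmbedding_subtypeVal (X := ℝ) (s := Ioo (0 : ℝ) 1))

end Pool.Agent.Helper42
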