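import Mathlib
import Pool.Agent.Helper42.Strip

set_option autoImplicit false

namespace Pool.Agent.Helper42

open Topology Set

section One

variable {I : Type} [LinearOrder I]

/-- ends of the windows -/
noncomputable def aM (n : ℕ) : ℝ := 1 / (2 * (n : ℝ) + 4)

/-- ends of the windows -/
noncomputable def bM (n : ℕ) : ℝ := 1 / (2 * (n : ℝ) + 3)

theorem aM_pos (n : ℕ) : 0 < aM n := by unfold aM; positivity

theorem aM_lt_bM (n : ℕ) : aM n < bM n := by
  unfold aM bM
  apply one_div_lt_one_div_of_lt (by positivity)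
  linarith

theorem bM_lt_aM {n m : ℕ} (h : n < m) : bM m < aM n := by
  unfold aM bM
  apply one_div_lt_one_div_of_lt (by positivity)
  have : (n : ℝ) + 1 ≤ m := by exact_mod_cast h
  linarith

theorem bM_le (n : ℕ) : bM n ≤ 1 / ((n : ℝ) + 1) := by
  unfold bM
  apply one_div_le_one_div_of_le (by positivity)
  have : (0 : ℝ) ≤ n := Nat.cast_nonneg n
  linarith

theorem bM_le_third (n : ℕ) : bM n ≤ 1 / 3 := by
  unfold bM
  apply one_div_le_one_div_of_le (by norm_num)
  have : (0 : ℝ) ≤ n := Nat.cast_nonneg n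
  linarith

theorem windows_disj' {n m : ℕ} {r y : ℝ} (h1 : y ∈ Icc (r + aM n) (r + bM n))
    (h2 : y ∈ Icc (r + aM m) (r + bM m)) : n = m := by
  rcases lt_trichotomy n m with h | h | h
  · have := bM_lt_aM h
    linarith [h1.1, h2.2]
  · exact h
  · have := bM_lt_aM h
    linarith [h2.1, h1.2]

open Classical in
/-- position of the marked point on level `b` -/
noncomputable def rB (b : I) : ℝ := if IsBot b then 1 / 2 else 0

theorem rB_mem (b : I) : rB b ∈ Icc (0 : ℝ) (1 / 2) := by
  unfold rB
  split_ifs <;> constructor <;> norm_num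

theorem rB_nonneg (b : I) : 0 ≤ rB b := (rB_mem b).1

theorem rB_le (b : I) : rB b ≤ 1 / 2 := (rB_mem b).2

theorem rB_Ico (b : I) : rB b ∈ Ico (0 : ℝ) 1 := ⟨rB_nonneg b, by linarith [rB_le b]⟩

/-- small windows -/
noncomputable def win (b : I) (r : ℝ) (hr : 0 ≤ r) (hr' : r ≤ 1 / 2) (n : ℕ)
    (u : Ioo (0 : ℝ) 1) : LRo I :=
  eb b (affI (r + aM n) (r + bM n) (by linarith [aM_pos n]) (by linarith [aM_lt_bM n])
    (by linarith [bM_le_third n]) u)

/-- The gluing data in dimension one. -/
noncomputable def dataOne (i₀ : I) (F : I → ℕ → WithTop I) (good : ∀ a, Good a (F a))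
    (coh : ∀ a b, a ≤ b → Coh a (F a) (F b)) :
    CohData I (LRo I) (Ioo (0 : ℝ) 1) where
  F := F
  good := good
  coh := coh
  lev p := p.lev
  open_lev a := LRo_isOpen_lev a
  k b n := win b (rB b) (rB_nonneg b) (rB_le b) n
  k_emb b n := (eb_isOpenEmbedding b).comp (affI_isOpenEmbedding _ _ _ _ _)
  k' n := win i₀ (1 / 2) (by norm_num) le_rfl n
  k'_emb n := (eb_isOpenEmbedding i₀).comp (affI_isOpenEmbedding _ _ _ _ _)
  k'_disj := by
    intro n m q r h
    have h2 : LR.pos (win i₀ (1 / 2) (by norm_num) le_rfl n q : LRo I).1 =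
        LR.pos (win i₀ (1 / 2) (by norm_num) le_rfl m r : LRo I).1 := by rw [h]
    have key : ∀ (n : ℕ) (q : Ioo (0 : ℝ) 1),
        LR.pos (win i₀ (1 / 2) (by norm_num) le_rfl n q : LRo I).1 ∈
          Icc (1 / 2 + aM n) (1 / 2 + bM n) := by
      intro n q
      have h1 := q.2.1
      have h2 := q.2.2
      have h3 := aM_lt_bM n
      change (1 / 2 + aM n) + ((1 / 2 + bM n) - (1 / 2 + aM n)) * (q : ℝ) ∈ _
      constructor
      · nlinarith
      · nlinarith
    exact windows_disj' (key n q) (by rw [h2]; exact key m r)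
  C b n := {p | (p : LR I) ∈ Icc
    (LR.mk b (rB b + aM n) ⟨by linarith [aM_pos n, rB_nonneg b],
      by linarith [bM_le_third n, rB_le b, aM_lt_bM n]⟩)
    (LR.mk b (rB b + bM n) ⟨by linarith [aM_pos n, rB_nonneg b, aM_lt_bM n],
      by linarith [bM_le_third n, rB_le b, aM_lt_bM n]⟩)}
  C_closed b n := by
    change IsClosed ((Subtype.val : LRo I → LR I) ⁻¹' Icc _ _)
    exact isClosed_Icc.preimage continuous_subtype_val
  k_mem b n q := by
    have h1 := q.2.1
    have h2 := q.2.2
    have h3 := aM_lt_bM n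
    constructor
    · rw [LR.le_iff]; right
      refine ⟨rfl, ?_⟩
      change rB b + aM n ≤ (rB b + aM n) + ((rB b + bM n) - (rB b + aM n)) * (q : ℝ)
      nlinarith
    · rw [LR.le_iff]; right
      refine ⟨rfl, ?_⟩
      change (rB b + aM n) + ((rB b + bM n) - (rB b + aM n)) * (q : ℝ) ≤ rB b + bM n
      nlinarith
  C_disj := by
    rintro b n c m y ⟨h1, h2⟩ ⟨h4, h5⟩
    have h7 := LR.lev_mono h1
    have h8 := LR.lev_mono h2
    have h9 := LR.lev_mono h4
    have h10 := LR.lev_mono h5
    simp only [LR.lev_mk] at h7 h8 h9 h10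
    have hbc : b = c := le_antisymm (h7.trans h10) (h9.trans h8)
    subst hbc
    refine ⟨rfl, ?_⟩
    have hl : LR.lev (y : LR I) = b := le_antisymm h8 h7
    have aux1 : ∀ (t : ℝ) (ht), LR.mk b t ht ≤ (y : LR I) → t ≤ LR.pos (y : LR I) := by
      intro t ht h
      rcases LR.le_iff.1 h with h | h
      · rw [LR.lev_mk, hl] at h; exact absurd h (lt_irrefl _)
      · exact h.2
    have aux2 : ∀ (t : ℝ) (ht), (y : LR I) ≤ LR.mk b t ht → LR.pos (y : LR I) ≤ t := by
      intro t ht h
      rcases LR.le_iff.1 h with h | h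
      · rw [LR.lev_mk, hl] at h; exact absurd h (lt_irrefl _)
      · exact h.2
    exact windows_disj' ⟨aux1 _ _ h1, aux2 _ _ h2⟩ ⟨aux1 _ _ h4, aux2 _ _ h5⟩
  C_lev := by
    rintro b n y ⟨h1, h2⟩
    have h7 := LR.lev_mono h1
    have h8 := LR.lev_mono h2
    simp only [LR.lev_mk] at h7 h8
    exact le_antisymm h8 h7

/-- marked points -/
noncomputable def mark (b : I) : LRo I := ⟨LR.mk b (rB b) (rB_Ico b), by
  by_cases h : IsBot b
  · refine ⟨LR.mk b 0 ⟨le_rfl, one_pos⟩, ?_⟩
    rw [LR.lt_iff]; right
    exact ⟨rfl, by simp [rB, h]⟩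
  · simp only [IsBot, not_forall, not_le] at h
    obtain ⟨c, hc⟩ := h
    refine ⟨LR.mk c 0 ⟨le_rfl, one_pos⟩, ?_⟩
    rw [LR.lt_iff]; left
    exact hc⟩

@[simp] theorem mark_lev (b : I) : (mark b).lev = b := rfl

theorem mark_notMem (i₀ : I) (F : I → ℕ → WithTop I) (good : ∀ a, Good a (F a))
    (coh : ∀ a b, a ≤ b → Coh a (F a) (F b)) (x b : I) (n : ℕ) :
    mark x ∉ (dataOne i₀ F good coh).C b n := by
  rintro ⟨h1, h2⟩
  have h7 := LR.lev_mono h1
  have h8 := LR.lev_mono h2
  have h3 : x = b := le_antisymm h8 h7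
  subst h3
  rcases LR.le_iff.1 h1 with h | h
  · exact absurd h (lt_irrefl _)
  · have h4 := h.2
    change rB x + aM n ≤ rB x at h4
    linarith [aM_pos n]

theorem isOpen_Iic_of_wf [TopologicalSpace I] [OrderTopology I] [WellFoundedLT I] [NoMaxOrder I]
    (a : I) : IsOpen (Iic a) := by
  have hne : (Ioi a).Nonempty := nonempty_Ioi
  have : Iic a = Iio (wellFounded_lt.min (Ioi a) hne) := by
    ext x
    constructor
    · intro hx
      exact lt_of_le_of_lt hx (wellFounded_lt.min_mem (Ioi a) hne)
    · intro hx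
      by_contra hcon
      exact wellFounded_lt.not_lt_min (Ioi a) (not_le.1 hcon) hx
  rw [this]
  exact isOpen_Iio

theorem mark_embedding [TopologicalSpace I] [OrderTopology I] [WellFoundedLT I] [NoMaxOrder I] :
    IsEmbedding (mark : I → LRo I) := by
  set f : I → LR I := fun b => (mark b).1 with hf
  have hlev : ∀ b, LR.lev (f b) = b := fun b => rfl
  have hmono : StrictMono f := by
    intro a b hab
    rw [LR.lt_iff]; left; exact hab
  have hcont : Continuous f := by
    rw [OrderTopology.topology_eq_generate_intervals (α := LR I)] at *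
    rw [continuous_generateFrom_iff]
    rintro s ⟨a, rfl | rfl⟩
    · -- `Ioi a`
      by_cases hbot : IsBot (LR.lev a)
      · by_cases hp : LR.pos a < 1 / 2
        · have : f ⁻¹' Ioi a = univ := by
            rw [eq_univ_iff_forall]
            intro b
            change a < f b
            rw [LR.lt_iff, hlev]
            rcases (hbot b).lt_or_eq with h | h
            · left; exact h
            · right
              refine ⟨h, ?_⟩
              have hb : IsBot b := h ▸ hbot
              change LR.pos a < rB b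
              simpa [rB, hb] using hp
          rw [this]; exact isOpen_univ
        · have : f ⁻¹' Ioi a = Ioi (LR.lev a) := by
            ext b
            change a < f b ↔ LR.lev a < b
            rw [LR.lt_iff, hlev]
            constructor
            · rintro (h | ⟨h, h'⟩)
              · exact h
              · exfalso
                change LR.pos a < rB b at h'
                linarith [rB_le b]
            · intro h; left; exact h
          rw [this]; exact isOpen_Ioi
      · have : f ⁻¹' Ioi a = Ioi (LR.lev a) := by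
          ext b
          change a < f b ↔ LR.lev a < b
          rw [LR.lt_iff, hlev]
          constructor
          · rintro (h | ⟨h, h'⟩)
            · exact h
            · exfalso
              have hb : ¬ IsBot b := h ▸ hbot
              change LR.pos a < rB b at h'
              simp only [rB, hb, if_false] at h'
              linarith [(LR.pos_mem a).1]
          · intro h; left; exact h
        rw [this]; exact isOpen_Ioi
    · by_cases hp : f (LR.lev a) < a
      · have : f ⁻¹' Iio a = Iic (LR.lev a) := by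
          ext b
          change f b < a ↔ b ≤ LR.lev a
          constructor
          · intro h
            have := LR.lev_mono h.le
            rwa [hlev] at this
          · intro h
            exact lt_of_le_of_lt (hmono.monotone h) hp
        rw [this]; exact isOpen_Iic_of_wf _
      · have : f ⁻¹' Iio a = Iio (LR.lev a) := by
          ext b
          change f b < a ↔ b < LR.lev a
          constructor
          · intro h
            have := LR.lev_mono h.le
            rw [hlev] at this
            refine lt_of_le_of_ne this ?_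
            intro h'
            rw [h'] at h
            exact hp h
          · intro h
            rw [LR.lt_iff]; left; exact h
        rw [this]; exact isOpen_Iio
  have hind : IsInducing f := by
    rw [isInducing_iff_nhds]
    intro x
    apply le_antisymm
    · exact hcont.continuousAt.le_comap
    · rw [nhds_eq_order x]
      refine le_inf ?_ ?_
      · refine le_iInf₂ fun a ha => ?_
        rw [Filter.le_principal_iff, Filter.mem_comap]
        refine ⟨Ioi (f a), Ioi_mem_nhds (hmono ha), ?_⟩
        intro b hb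
        exact hmono.lt_iff_lt.1 hb
      · refine le_iInf₂ fun a ha => ?_
        rw [Filter.le_principal_iff, Filter.mem_comap]
        refine ⟨Iio (f a), Iio_mem_nhds (hmono ha), ?_⟩
        intro b hb
        exact hmono.lt_iff_lt.1 hb
  have hemb : IsEmbedding f := ⟨hind, hmono.injective⟩
  exact IsEmbedding.of_comp (hcont.subtype_mk _) continuous_subtype_val hemb

theorem exists_large' (ε : ℝ) (hε : 0 < ε) : ∃ N : ℕ, ∀ n ≥ N, 1 / ((n : ℝ) + 1) < ε := by
  obtain ⟨N, hN⟩ := exists_nat_one_div_lt hε
  refine ⟨N, fun n hn => lt_of_le_of_lt ?_ hN⟩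
  apply one_div_le_one_div_of_le (by positivity)
  have : (N : ℝ) ≤ n := by exact_mod_cast hn
  linarith

theorem one_approx (i₀ : I) (F : I → ℕ → WithTop I) (good : ∀ a, Good a (F a))
    (coh : ∀ a b, a ≤ b → Coh a (F a) (F b)) (x : I)
    (V : Set (LRo I)) (hV : V ∈ 𝓝 (mark x))
    (U : Set (LRo I)) (hU : U ∈ 𝓝 (eb i₀ ⟨1 / 2, by norm_num, by norm_num⟩ : LRo I)) :
    ∃ N : ℕ, ∀ n ≥ N, ∃ q, (dataOne i₀ F good coh).k (mark x).lev n q ∈ V ∧
      (dataOne i₀ F good coh).k' n q ∈ U := by
  have hx1 : ∃ s : ℝ, 0 < s ∧ ∀ t : Ioo (0 : ℝ) 1, rB x ≤ t → (t : ℝ) < rB x + s →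
      eb x t ∈ V := by
    rw [mem_nhds_subtype] at hV
    obtain ⟨V1', hV1', hsub⟩ := hV
    obtain ⟨b, hxb, hb⟩ := exists_Ico_subset_of_mem_nhds hV1' (exists_gt (mark x : LR I))
    rcases LR.lt_iff.1 hxb with h | ⟨h1, h2⟩
    · refine ⟨1, one_pos, ?_⟩
      intro t ht _
      apply hsub
      apply hb
      constructor
      · rw [LR.le_iff]; right
        exact ⟨rfl, ht⟩
      · rw [LR.lt_iff]; left; exact h
    · refine ⟨LR.pos b - rB x, sub_pos.2 h2, ?_⟩
      intro t ht ht'
      apply hsub
      apply hb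
      constructor
      · rw [LR.le_iff]; right
        exact ⟨rfl, ht⟩
      · rw [LR.lt_iff]; right
        refine ⟨h1, ?_⟩
        change (t : ℝ) < LR.pos b
        linarith
  obtain ⟨s, hs, hsV⟩ := hx1
  have hU1' : (eb i₀ : Ioo (0 : ℝ) 1 → LRo I) ⁻¹' U ∈ 𝓝 (⟨1 / 2, by norm_num, by norm_num⟩ :
      Ioo (0 : ℝ) 1) := (eb_isOpenEmbedding i₀).continuous.continuousAt.preimage_mem_nhds hU
  obtain ⟨δ, hδ, hU1''⟩ := Metric.mem_nhds_iff.1 hU1'
  obtain ⟨N, hN⟩ := exists_large' (min s δ) (lt_min hs hδ)
  refine ⟨N, fun n hn => ?_⟩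
  have hlt := hN n hn
  simp only [lt_min_iff] at hlt
  obtain ⟨h1, h2⟩ := hlt
  have hhalf : (1 / 2 : ℝ) ∈ Ioo (0 : ℝ) 1 := by constructor <;> norm_num
  have ha := aM_pos n
  have hab := aM_lt_bM n
  have hb := bM_le n
  refine ⟨⟨1 / 2, hhalf⟩, ?_, ?_⟩
  · change win x (rB x) (rB_nonneg x) (rB_le x) n ⟨1 / 2, hhalf⟩ ∈ V
    unfold win
    apply hsV
    · change rB x ≤ (rB x + aM n) + ((rB x + bM n) - (rB x + aM n)) * (1 / 2)
      nlinarith
    · change (rB x + aM n) + ((rB x + bM n) - (rB x + aM n)) * (1 / 2) < rB x + s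
      nlinarith
  · change win i₀ (1 / 2) (by norm_num) le_rfl n ⟨1 / 2, hhalf⟩ ∈ U
    unfold win
    apply hU1''
    rw [Metric.mem_ball, Subtype.dist_eq, Real.dist_eq]
    simp only [affI]
    rw [abs_lt]
    constructor
    · nlinarith
    · nlinarith

end One

end Pool.Agent.Helper42
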