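import Mathlib
import Pool.Agent.Helper42.Strip

set_option autoImplicit false

namespace Pool.Agent.Helper42

open Topology Set

section Two

variable {I : Type} [LinearOrder I]

/-- lower end of the `n`-th window -/
noncomputable def cN (n : ℕ) : ℝ := 1 / ((n : ℝ) + 3)

theorem cN_pos (n : ℕ) : 0 < cN n := by unfold cN; positivity

theorem cN_lt (n : ℕ) : cN n ≤ 1 / 3 := by
  unfold cN
  apply one_div_le_one_div_of_le (by norm_num)
  have : (0 : ℝ) ≤ n := Nat.cast_nonneg n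
  linarith

/-- lower end of the height window -/
noncomputable def aN (n : ℕ) : ℝ := 1 / (2 * (n : ℝ) + 2)

/-- upper end of the height window -/
noncomputable def bN (n : ℕ) : ℝ := 1 / (2 * (n : ℝ) + 1)

theorem aN_pos (n : ℕ) : 0 < aN n := by unfold aN; positivity

theorem aN_lt_bN (n : ℕ) : aN n < bN n := by
  unfold aN bN
  apply one_div_lt_one_div_of_lt (by positivity)
  linarith

theorem bN_lt_aN {n m : ℕ} (h : n < m) : bN m < aN n := by
  unfold aN bN
  apply one_div_lt_one_div_of_lt (by positivity)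
  have : (n : ℝ) + 1 ≤ m := by exact_mod_cast h
  linarith

theorem windows_disj {n m : ℕ} {y : ℝ} (h1 : y ∈ Icc (aN n) (bN n)) (h2 : y ∈ Icc (aN m) (bN m)) :
    n = m := by
  rcases lt_trichotomy n m with h | h | h
  · have := bN_lt_aN h
    linarith [h1.1, h2.2]
  · exact h
  · have := bN_lt_aN h
    linarith [h2.1, h1.2]

theorem bN_le (n : ℕ) : bN n ≤ 1 / ((n : ℝ) + 1) := by
  unfold bN
  apply one_div_le_one_div_of_le (by positivity)
  have : (0 : ℝ) ≤ n := Nat.cast_nonneg n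
  linarith

theorem cN_le (n : ℕ) : cN n ≤ 1 / ((n : ℝ) + 1) := by
  unfold cN
  apply one_div_le_one_div_of_le (by positivity)
  linarith

/-- height coordinate embedding -/
noncomputable def hgt (n : ℕ) (v : Ioo (0 : ℝ) 1) : ℝ := affR (aN n) (bN n) (aN_lt_bN n) v

theorem hgt_isOpenEmbedding (n : ℕ) : IsOpenEmbedding (hgt n) :=
  (affR (aN n) (bN n) (aN_lt_bN n)).isOpenEmbedding.comp
    (isOpen_Ioo.isOpenEmbedding_subtypeVal (X := ℝ) (s := Ioo (0 : ℝ) 1))

theorem hgt_mem (n : ℕ) (v : Ioo (0 : ℝ) 1) : hgt n v ∈ Icc (aN n) (bN n) := by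
  have h1 := v.2.1
  have h2 := v.2.2
  have h3 := aN_lt_bN n
  unfold hgt
  rw [affR_apply]
  constructor
  · nlinarith [mul_pos (sub_pos.2 h3) h1]
  · nlinarith [mul_lt_mul_of_pos_left h2 (sub_pos.2 h3)]

/-- wide windows on each level -/
noncomputable def wide (b : I) (n : ℕ) (u : Ioo (0 : ℝ) 1) : LRo I :=
  eb b (affI (cN n) (1 - cN n) (cN_pos n).le (by linarith [cN_lt n]) (by linarith [cN_pos n]) u)

/-- the radius of the narrow windows -/
noncomputable def rN (n : ℕ) : ℝ := 1 / (2 * ((n : ℝ) + 1))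

theorem rN_pos (n : ℕ) : 0 < rN n := by unfold rN; positivity

theorem rN_le_half (n : ℕ) : rN n ≤ 1 / 2 := by
  unfold rN
  apply one_div_le_one_div_of_le (by norm_num)
  have : (0 : ℝ) ≤ n := Nat.cast_nonneg n
  linarith

theorem rN_le (n : ℕ) : rN n ≤ 1 / ((n : ℝ) + 1) := by
  unfold rN
  apply one_div_le_one_div_of_le (by positivity)
  have : (0 : ℝ) ≤ n := Nat.cast_nonneg n
  linarith

/-- narrow windows on the base level -/
noncomputable def narrow (i₀ : I) (n : ℕ) (u : Ioo (0 : ℝ) 1) : LRo I :=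
  eb i₀ (affI (1 / 2 - rN n) (1 / 2 + rN n) (by linarith [rN_le_half n]) (by linarith [rN_pos n])
    (by linarith [rN_le_half n]) u)

/-- The gluing data in dimension two. -/
noncomputable def dataTwo (i₀ : I) (F : I → ℕ → WithTop I) (good : ∀ a, Good a (F a))
    (coh : ∀ a b, a ≤ b → Coh a (F a) (F b)) :
    CohData I (LRo I × ℝ) (Ioo (0 : ℝ) 1 × Ioo (0 : ℝ) 1) where
  F := F
  good := good
  coh := coh
  lev p := p.1.lev
  open_lev a := (LRo_isOpen_lev a).preimage continuous_fst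
  k b n := Prod.map (wide b n) (hgt n)
  k_emb b n := ((eb_isOpenEmbedding b).comp (affI_isOpenEmbedding _ _ _ _ _)).prodMap
    (hgt_isOpenEmbedding n)
  k' n := Prod.map (narrow i₀ n) (hgt n)
  k'_emb n := ((eb_isOpenEmbedding i₀).comp (affI_isOpenEmbedding _ _ _ _ _)).prodMap
    (hgt_isOpenEmbedding n)
  k'_disj := by
    intro n m q r h
    have h2 : hgt n q.2 = hgt m r.2 := congrArg Prod.snd h
    exact windows_disj (hgt_mem n q.2) (by rw [h2]; exact hgt_mem m r.2)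
  C b n := {p | (p.1 : LR I) ∈ Icc (LR.mk b (cN n) ⟨(cN_pos n).le, by linarith [cN_lt n]⟩)
    (LR.mk b (1 - cN n) ⟨by linarith [cN_lt n], by linarith [cN_pos n]⟩) ∧
      p.2 ∈ Icc (aN n) (bN n)}
  C_closed b n := by
    refine IsClosed.inter ?_ ?_
    · exact isClosed_Icc.preimage (continuous_subtype_val.comp continuous_fst)
    · exact isClosed_Icc.preimage continuous_snd
  k_mem b n q := by
    refine ⟨?_, hgt_mem n q.2⟩
    have h1 := q.1.2.1
    have h2 := q.1.2.2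
    have h3 := cN_lt n
    have h4 := cN_pos n
    constructor
    · rw [LR.le_iff]; right
      refine ⟨rfl, ?_⟩
      change cN n ≤ cN n + (1 - cN n - cN n) * (q.1 : ℝ)
      nlinarith
    · rw [LR.le_iff]; right
      refine ⟨rfl, ?_⟩
      change cN n + (1 - cN n - cN n) * (q.1 : ℝ) ≤ 1 - cN n
      nlinarith
  C_disj := by
    rintro b n c m y ⟨⟨h1, h2⟩, h3⟩ ⟨⟨h4, h5⟩, h6⟩
    have h7 := LR.lev_mono h1
    have h8 := LR.lev_mono h2
    have h9 := LR.lev_mono h4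
    have h10 := LR.lev_mono h5
    simp only [LR.lev_mk] at h7 h8 h9 h10
    exact ⟨le_antisymm (h7.trans h10) (h9.trans h8), windows_disj h3 h6⟩
  C_lev := by
    rintro b n y ⟨⟨h1, h2⟩, _⟩
    have h7 := LR.lev_mono h1
    have h8 := LR.lev_mono h2
    simp only [LR.lev_mk] at h7 h8
    exact le_antisymm h8 h7

theorem exists_large (ε : ℝ) (hε : 0 < ε) : ∃ N : ℕ, ∀ n ≥ N, 1 / ((n : ℝ) + 1) < ε := by
  obtain ⟨N, hN⟩ := exists_nat_one_div_lt hε
  refine ⟨N, fun n hn => lt_of_le_of_lt ?_ hN⟩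
  apply one_div_le_one_div_of_le (by positivity)
  have : (N : ℝ) ≤ n := by exact_mod_cast hn
  linarith

theorem two_approx (i₀ : I) (F : I → ℕ → WithTop I) (good : ∀ a, Good a (F a))
    (coh : ∀ a b, a ≤ b → Coh a (F a) (F b)) (x : LRo I)
    (V : Set (LRo I × ℝ)) (hV : V ∈ 𝓝 (x, (0 : ℝ)))
    (U : Set (LRo I × ℝ)) (hU : U ∈ 𝓝 (eb i₀ ⟨1 / 2, by norm_num, by norm_num⟩, (0 : ℝ))) :
    ∃ N : ℕ, ∀ n ≥ N, ∃ q, (dataTwo i₀ F good coh).k x.lev n q ∈ V ∧
      (dataTwo i₀ F good coh).k' n q ∈ U := by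
  rw [mem_nhds_prod_iff] at hV hU
  obtain ⟨V1, hV1, V2, hV2, hV12⟩ := hV
  obtain ⟨U1, hU1, U2, hU2, hU12⟩ := hU
  -- a point of the window of `x`
  have hx1 : ∃ s : ℝ, ∃ hs : s ∈ Ioo (0 : ℝ) 1, eb x.lev ⟨s, hs⟩ ∈ V1 := by
    rw [mem_nhds_subtype] at hV1
    obtain ⟨V1', hV1', hsub⟩ := hV1
    obtain ⟨b, hxb, hb⟩ := exists_Ico_subset_of_mem_nhds hV1' (exists_gt (x : LR I))
    have hp := LR.pos_mem x.1
    rcases LR.lt_iff.1 hxb with h | ⟨h1, h2⟩
    · have hs : (LR.pos x.1 + 1) / 2 ∈ Ioo (0 : ℝ) 1 := ⟨by linarith [hp.1], by linarith [hp.2]⟩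
      refine ⟨_, hs, ?_⟩
      apply hsub
      apply hb
      constructor
      · rw [LR.le_iff]; right
        refine ⟨rfl, ?_⟩
        change LR.pos x.1 ≤ (LR.pos x.1 + 1) / 2
        linarith [hp.2]
      · rw [LR.lt_iff]; left; exact h
    · have hpb := LR.pos_mem b
      have hs : (LR.pos x.1 + LR.pos b) / 2 ∈ Ioo (0 : ℝ) 1 :=
        ⟨by linarith [hp.1], by linarith [hpb.2]⟩
      refine ⟨_, hs, ?_⟩
      apply hsub
      apply hb
      constructor
      · rw [LR.le_iff]; right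
        refine ⟨rfl, ?_⟩
        change LR.pos x.1 ≤ (LR.pos x.1 + LR.pos b) / 2
        linarith
      · rw [LR.lt_iff]; right
        refine ⟨h1, ?_⟩
        change (LR.pos x.1 + LR.pos b) / 2 < LR.pos b
        linarith
  obtain ⟨s, hs, hsV⟩ := hx1
  obtain ⟨ε1, hε1, hV2'⟩ := Metric.mem_nhds_iff.1 hV2
  obtain ⟨ε2, hε2, hU2'⟩ := Metric.mem_nhds_iff.1 hU2
  have hU1' : (eb i₀ : Ioo (0 : ℝ) 1 → LRo I) ⁻¹' U1 ∈ 𝓝 (⟨1 / 2, by norm_num, by norm_num⟩ :
      Ioo (0 : ℝ) 1) := (eb_isOpenEmbedding i₀).continuous.continuousAt.preimage_mem_nhds hU1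
  obtain ⟨δ, hδ, hU1''⟩ := Metric.mem_nhds_iff.1 hU1'
  obtain ⟨N, hN⟩ := exists_large (min (min s (1 - s)) (min (min ε1 ε2) δ))
    (by
      have := hs.1
      have := hs.2
      simp only [lt_min_iff]
      exact ⟨⟨by assumption, by linarith⟩, ⟨hε1, hε2⟩, hδ⟩)
  refine ⟨N, fun n hn => ?_⟩
  have hlt := hN n hn
  simp only [lt_min_iff] at hlt
  obtain ⟨⟨h1, h2⟩, ⟨h3, h4⟩, h5⟩ := hlt
  have hc := cN_le n
  have hcp := cN_pos n
  have hcl := cN_lt n
  have hden : 0 < 1 - cN n - cN n := by linarith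
  have hu : (s - cN n) / (1 - cN n - cN n) ∈ Ioo (0 : ℝ) 1 := by
    constructor
    · apply div_pos _ hden
      linarith
    · rw [div_lt_one hden]
      linarith
  have hbn := bN_le n
  have hhalf : (1 / 2 : ℝ) ∈ Ioo (0 : ℝ) 1 := by constructor <;> norm_num
  refine ⟨(⟨_, hu⟩, ⟨1 / 2, hhalf⟩), ?_, ?_⟩
  · apply hV12
    have hmem := hgt_mem n ⟨1 / 2, hhalf⟩
    refine ⟨?_, ?_⟩
    · change wide x.lev n ⟨_, hu⟩ ∈ V1
      have : wide x.lev n ⟨(s - cN n) / (1 - cN n - cN n), hu⟩ = eb x.lev ⟨s, hs⟩ := by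
        unfold wide
        congr 1
        apply Subtype.ext
        simp only [affI]
        field_simp
        ring
      rw [this]
      exact hsV
    · apply hV2'
      change hgt n ⟨1 / 2, hhalf⟩ ∈ Metric.ball (0 : ℝ) ε1
      rw [Metric.mem_ball, Real.dist_eq, sub_zero, abs_of_pos ((aN_pos n).trans_le hmem.1)]
      linarith [hmem.2]
  · apply hU12
    have hmem := hgt_mem n ⟨1 / 2, hhalf⟩
    refine ⟨?_, ?_⟩
    · change narrow i₀ n ⟨_, hu⟩ ∈ U1
      unfold narrow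
      apply hU1''
      rw [Metric.mem_ball, Subtype.dist_eq, Real.dist_eq]
      simp only [affI]
      have hr := rN_pos n
      have hr2 := rN_le n
      have hu1 := hu.1
      have hu2 := hu.2
      rw [abs_lt]
      constructor
      · nlinarith
      · nlinarith
    · apply hU2'
      change hgt n ⟨1 / 2, hhalf⟩ ∈ Metric.ball (0 : ℝ) ε2
      rw [Metric.mem_ball, Real.dist_eq, sub_zero, abs_of_pos ((aN_pos n).trans_le hmem.1)]
      linarith [hmem.2]

end Two

end Pool.Agent.Helper42
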