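import Mathlib
import Pool.Agent.Helper42.Glue

set_option autoImplicit false

namespace Pool.Agent.Helper42

open Topology Set

/-- Any two points have homeomorphic neighbourhoods. -/
def LocallyHomogeneous (Y : Type*) [TopologicalSpace Y] : Prop :=
  ∀ x y : Y, ∃ e : OpenPartialHomeomorph Y Y, x ∈ e.source ∧ e x = y

section PermExt

variable {N : Type*} [TopologicalSpace N]

open Classical in
/-- auxiliary involution on `N ⊕ N` attached to a partial bijection. -/
noncomputable def thetaFun (e : OpenPartialHomeomorph N N) : N ⊕ N → N ⊕ N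
  | Sum.inl n => if n ∈ e.target then Sum.inr (e.symm n) else Sum.inl n
  | Sum.inr n => if n ∈ e.source then Sum.inl (e n) else Sum.inr n

theorem thetaFun_invol (e : OpenPartialHomeomorph N N) : Function.Involutive (thetaFun e) := by
  classical
  rintro (n | n)
  · by_cases h : n ∈ e.target
    · have h' : e.symm n ∈ e.source := e.map_target h
      simp [thetaFun, h, h']
    · simp [thetaFun, h]
  · by_cases h : n ∈ e.source
    · have h' : e n ∈ e.target := e.map_source h
      simp [thetaFun, h, h']
    · simp [thetaFun, h]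

/-- A permutation of `N ⊕ N` which extends the partial bijection `e`. -/
noncomputable def permExt (e : OpenPartialHomeomorph N N) : Equiv.Perm (N ⊕ N) :=
  (Equiv.sumComm N N).trans (thetaFun_invol e).toPerm

theorem permExt_apply (e : OpenPartialHomeomorph N N) {n : N} (h : n ∈ e.source) :
    permExt e (Sum.inl n) = Sum.inl (e n) := by
  classical
  simp [permExt, thetaFun, h]

end PermExt

section Homog

variable {N : Type*} [TopologicalSpace N] (P : N × N → OpenPartialHomeomorph N N)

/-- The gluing relation on the copies of `N` indexed by the free group. -/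
inductive HRel : (Σ _ : FreeGroup (N × N), N) → (Σ _ : FreeGroup (N × N), N) → Prop
  | mk (g : FreeGroup (N × N)) (i : N × N) (u : N) (hu : u ∈ (P i).source) :
      HRel ⟨g * FreeGroup.of i, u⟩ ⟨g, P i u⟩

theorem hRel_loc : IsLocHomeoRel (HRel P) := by
  intro p q h
  cases h with
  | mk g i u hu =>
    exact ⟨P i, hu, rfl, fun x hx => HRel.mk g i x hx⟩

/-- The homogeneous space. -/
abbrev HSpace : Type _ := Quot (HRel P)

/-- The invariant used to prove injectivity. -/
noncomputable def hInv (p : Σ _ : FreeGroup (N × N), N) : N ⊕ N :=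
  (FreeGroup.lift (fun i => permExt (P i)) p.1) (Sum.inl p.2)

theorem hInv_inv : ∀ p q, HRel P p q → hInv P p = hInv P q := by
  intro p q h
  cases h with
  | mk g i u hu =>
    simp [hInv, permExt_apply _ hu]

theorem hSpace_isOpenEmbedding (g : FreeGroup (N × N)) :
    IsOpenEmbedding (glueMap (HRel P) g) := by
  refine isOpenEmbedding_glueMap (hRel_loc P) (hInv P) (hInv_inv P) g ?_
  intro x y hxy
  simp only [hInv] at hxy
  exact Sum.inl_injective ((Equiv.injective _) hxy)

/-- left translation -/
def hTransFun (h : FreeGroup (N × N)) : HSpace P → HSpace P :=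
  Quot.map (fun p => ⟨h * p.1, p.2⟩) (by
    intro p q hpq
    cases hpq with
    | mk g i u hu =>
      simpa [mul_assoc] using HRel.mk (P := P) (h * g) i u hu)

@[simp] theorem hTransFun_glueMap (h g : FreeGroup (N × N)) (n : N) :
    hTransFun P h (glueMap (HRel P) g n) = glueMap (HRel P) (h * g) n := rfl

theorem continuous_hTransFun (h : FreeGroup (N × N)) : Continuous (hTransFun P h) := by
  rw [continuous_quot_iff]
  intro j
  exact continuous_glueMap (HRel P) (h * j)

/-- left translation as a homeomorphism -/
def hTrans (h : FreeGroup (N × N)) : HSpace P ≃ₜ HSpace P where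
  toFun := hTransFun P h
  invFun := hTransFun P h⁻¹
  left_inv := by
    intro m
    obtain ⟨g, n, rfl⟩ := glueMap_surj (HRel P) m
    simp
  right_inv := by
    intro m
    obtain ⟨g, n, rfl⟩ := glueMap_surj (HRel P) m
    simp
  continuous_toFun := continuous_hTransFun P h
  continuous_invFun := continuous_hTransFun P h⁻¹

@[simp] theorem hTrans_glueMap (h g : FreeGroup (N × N)) (n : N) :
    hTrans P h (glueMap (HRel P) g n) = glueMap (HRel P) (h * g) n := rfl

theorem hSpace_homogeneous (hP : ∀ i, i.1 ∈ (P i).source ∧ P i i.1 = i.2)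
    (x y : HSpace P) : ∃ f : HSpace P ≃ₜ HSpace P, f x = y := by
  obtain ⟨g, n, rfl⟩ := glueMap_surj (HRel P) x
  obtain ⟨h, m, rfl⟩ := glueMap_surj (HRel P) y
  refine ⟨hTrans P (h * FreeGroup.of (n, m) * g⁻¹), ?_⟩
  rw [hTrans_glueMap]
  have h1 := hP (n, m)
  have h2 : glueMap (HRel P) (h * FreeGroup.of (n, m)) n = glueMap (HRel P) h (P (n, m) n) :=
    Quot.sound (HRel.mk h (n, m) n h1.1)
  simp only [inv_mul_cancel_right]
  rw [h2, h1.2]

theorem hSpace_connected [ConnectedSpace N]
    (hP : ∀ i, i.1 ∈ (P i).source ∧ P i i.1 = i.2) : ConnectedSpace (HSpace P) := by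
  obtain ⟨n₀⟩ := (inferInstance : Nonempty N)
  have hcon : ∀ g, IsConnected (range (glueMap (HRel P) g)) := fun g =>
    isConnected_range (continuous_glueMap (HRel P) g)
  set C := connectedComponent (glueMap (HRel P) 1 n₀) with hC
  -- overlapping copies
  have hstep : ∀ (g : FreeGroup (N × N)) (i : N × N),
      (range (glueMap (HRel P) (g * FreeGroup.of i)) ⊆ C ↔ range (glueMap (HRel P) g) ⊆ C) := by
    intro g i
    have hpt : glueMap (HRel P) (g * FreeGroup.of i) i.1 = glueMap (HRel P) g (P i i.1) :=
      Quot.sound (HRel.mk g i i.1 (hP i).1)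
    have key : ∀ S T : Set (HSpace P), IsConnected S → IsConnected T →
        (S ∩ T).Nonempty → S ⊆ C → T ⊆ C := by
      intro S T hS hT hST hSC
      obtain ⟨p, hpS, hpT⟩ := hST
      have hpC : p ∈ C := hSC hpS
      have : T ⊆ connectedComponent p := hT.isPreconnected.subset_connectedComponent hpT
      rw [← connectedComponent_eq hpC] at this
      exact this
    constructor
    · exact key _ _ (hcon _) (hcon _) ⟨_, ⟨i.1, rfl⟩, ⟨_, hpt.symm⟩⟩
    · exact key _ _ (hcon _) (hcon _) ⟨_, ⟨_, hpt.symm⟩, ⟨i.1, rfl⟩⟩
  have hall : ∀ g : FreeGroup (N × N), ∀ h : FreeGroup (N × N),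
      (range (glueMap (HRel P) (h * g)) ⊆ C ↔ range (glueMap (HRel P) h) ⊆ C) := by
    intro g
    induction g using FreeGroup.induction_on with
    | C1 => intro h; simp
    | of x => intro h; exact hstep h x
    | inv_of x _ =>
      intro h
      have := hstep (h * (FreeGroup.of x)⁻¹) x
      simpa using this.symm
    | mul x y hx hy =>
      intro h
      rw [← mul_assoc, hy, hx]
  have h1 : range (glueMap (HRel P) 1) ⊆ C :=
    (hcon 1).isPreconnected.subset_connectedComponent ⟨n₀, rfl⟩
  have huniv : C = univ := by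
    rw [eq_univ_iff_forall]
    intro m
    obtain ⟨g, n, rfl⟩ := glueMap_surj (HRel P) m
    have := (hall g 1).2 h1
    rw [one_mul] at this
    exact this ⟨n, rfl⟩
  rw [connectedSpace_iff_univ, ← huniv]
  exact isConnected_connectedComponent

end Homog

/-- **Homogenisation.** Every connected locally homogeneous space is openly embedded in a
connected homogeneous space which is covered by open copies of it. -/
theorem exists_homogeneous (N : Type) [TopologicalSpace N] [ConnectedSpace N]
    (hN : LocallyHomogeneous N) :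
    ∃ (M : Type) (_ : TopologicalSpace M) (f : N → M), IsOpenEmbedding f ∧ ConnectedSpace M ∧
      (∀ x y : M, ∃ h : M ≃ₜ M, h x = y) ∧
      (∀ m : M, ∃ g : N → M, IsOpenEmbedding g ∧ m ∈ range g) := by
  choose P hP using fun i : N × N => hN i.1 i.2
  refine ⟨HSpace P, inferInstance, glueMap (HRel P) 1, hSpace_isOpenEmbedding P 1,
    hSpace_connected P hP, hSpace_homogeneous P hP, ?_⟩
  intro m
  obtain ⟨g, n, rfl⟩ := glueMap_surj (HRel P) m
  exact ⟨glueMap (HRel P) g, hSpace_isOpenEmbedding P g, n, rfl⟩

end Pool.Agent.Helper42
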