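import Mathlib

set_option autoImplicit false

namespace Pool.Agent.Helper42

open Topology Set

/-- The long ray `ω₁ × [0,1)`, with the lexicographic order. Here `ω₁` is represented by the set
of all ordinals smaller than the first uncountable ordinal. -/
abbrev LongRay : Type 1 := Set.Iio (Ordinal.omega 1 : Ordinal.{0}) ×ₗ Set.Ico (0 : ℝ) 1

/-- The long ray carries the order topology. -/
instance instTopologicalSpaceLongRay : TopologicalSpace LongRay := Preorder.topology LongRay

/-- `NH z` is the set of points `y ≠ z` which cannot be separated from `z` by disjoint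
open sets. -/
def NH {M : Type} [TopologicalSpace M] (z : M) : Set M :=
  {y | y ≠ z ∧ ∀ U V : Set M, IsOpen U → IsOpen V → y ∈ U → z ∈ V → (U ∩ V).Nonempty}

/-- `M` is a homogeneous non-Hausdorff manifold of dimension `n`: it is connected, every point
has an open neighbourhood homeomorphic to `ℝⁿ`, it is not Hausdorff, and its homeomorphism
group acts transitively. -/
structure IsHNHManifold (n : ℕ) (M : Type) [TopologicalSpace M] : Prop where
  connected : ConnectedSpace M
  locally_euclidean : ∀ x : M, ∃ U : Set M, IsOpen U ∧ x ∈ U ∧
    Nonempty (U ≃ₜ EuclideanSpace ℝ (Fin n))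
  not_hausdorff : ¬ T2Space M
  homogeneous : ∀ x y : M, ∃ h : M ≃ₜ M, h x = y

end Pool.Agent.Helper42
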