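import Mathlib
import Pool.Agent.Helper42.NHDefs
import Pool.Agent.Helper42.Homog
import Pool.Agent.Helper42.DimOne
import Pool.Agent.Helper42.DimTwo

set_option autoImplicit false

namespace Pool.Agent.Helper42

open Topology Set

/-- The first uncountable ordinal `ω₁`, as a linearly ordered set. -/
def OmegaOne : Type := (Ordinal.omega 1 : Ordinal.{0}).ToType

noncomputable instance : LinearOrder OmegaOne :=
  inferInstanceAs (LinearOrder (Ordinal.omega 1 : Ordinal.{0}).ToType)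

/-- `ω₁` carries its order topology. -/
noncomputable instance : TopologicalSpace OmegaOne := Preorder.topology OmegaOne

instance : OrderTopology OmegaOne := ⟨rfl⟩

instance : OrderTopology LongRay := ⟨rfl⟩

/-- Order isomorphism between the two models of `ω₁`. -/
noncomputable def omegaIso : Set.Iio (Ordinal.omega 1 : Ordinal.{0}) ≃o OmegaOne :=
  (Ordinal.ToType.mk (o := Ordinal.omega 1) :
    Set.Iio (Ordinal.omega 1 : Ordinal.{0}) ≃o (Ordinal.omega 1 : Ordinal.{0}).ToType)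

/-- Order isomorphism between the two models of the long ray. -/
noncomputable def longRayIso : LongRay ≃o LR OmegaOne where
  toFun x := LR.mk (omegaIso (ofLex x).1) ((ofLex x).2 : ℝ) (ofLex x).2.2
  invFun y := toLex (omegaIso.symm (LR.lev y), ⟨LR.pos y, LR.pos_mem y⟩)
  left_inv x := by
    apply ofLex.injective
    simp
  right_inv y := by
    refine LR.ext ?_ ?_
    · simp
    · simp
  map_rel_iff' := by
    intro x y
    change LR.mk _ _ _ ≤ LR.mk _ _ _ ↔ _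
    rw [LR.le_iff, Prod.Lex.le_iff]
    simp

instance : WellFoundedLT OmegaOne :=
  inferInstanceAs (WellFoundedLT (Ordinal.omega 1 : Ordinal.{0}).ToType)

theorem OmegaOne.countable_Iio (a : OmegaOne) : (Iio a).Countable := by
  have h1 : ∀ o : Ordinal.{0}, o = (Cardinal.aleph 1).ord → ∀ a : o.ToType, (Iio a).Countable := by
    rintro o rfl a
    rw [← Cardinal.le_aleph0_iff_set_countable]
    have h2 : Cardinal.mk (Iio a) < Cardinal.mk (Cardinal.aleph 1).ord.ToType :=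
      Cardinal.mk_Iio_lt a (by simp)
    rw [Cardinal.mk_ord_toType] at h2
    exact Order.lt_succ_iff.1 (h2.trans_eq Cardinal.succ_aleph0.symm)
  exact h1 _ (Cardinal.ord_aleph 1).symm a

instance : NoMaxOrder OmegaOne := by
  have h1 : ∀ o : Ordinal.{0}, o = (Cardinal.aleph 1).ord → NoMaxOrder o.ToType := by
    rintro o rfl
    exact Cardinal.noMaxOrder (Cardinal.aleph0_le_aleph 1)
  exact h1 _ (Cardinal.ord_aleph 1).symm

instance : Nonempty OmegaOne := by
  have h1 : ∀ o : Ordinal.{0}, o = (Cardinal.aleph 1).ord → Nonempty o.ToType := by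
    rintro o rfl
    rw [← Cardinal.mk_ne_zero_iff, Cardinal.mk_ord_toType]
    exact (Cardinal.aleph0_pos.trans_le (Cardinal.aleph0_le_aleph 1)).ne'
  exact h1 _ (Cardinal.ord_aleph 1).symm

/-- Every point has a euclidean chart. -/
def LocEuc (n : ℕ) (M : Type) [TopologicalSpace M] : Prop :=
  ∀ x : M, ∃ f : EuclideanSpace ℝ (Fin n) → M, IsOpenEmbedding f ∧ x ∈ range f

theorem LocEuc.locallyHomogeneous {n : ℕ} {M : Type} [TopologicalSpace M] (h : LocEuc n M) :
    LocallyHomogeneous M := by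
  intro x y
  obtain ⟨f, hf, u, rfl⟩ := h x
  obtain ⟨g, hg, v, rfl⟩ := h y
  obtain ⟨e, he1, he2⟩ := exists_transition hf
    (hg.comp (Homeomorph.addRight (v - u)).isOpenEmbedding)
  refine ⟨e, by rw [he1]; exact ⟨u, rfl⟩, ?_⟩
  rw [he2]
  simp

theorem LocEuc.charts {n : ℕ} {M : Type} [TopologicalSpace M] (h : LocEuc n M) (x : M) :
    ∃ U : Set M, IsOpen U ∧ x ∈ U ∧ Nonempty (U ≃ₜ EuclideanSpace ℝ (Fin n)) := by
  obtain ⟨f, hf, hx⟩ := h x
  exact ⟨range f, hf.isOpen_range, hx, ⟨hf.isEmbedding.toHomeomorph.symm⟩⟩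

theorem LocEuc.of_cover {n : ℕ} {N M : Type} [TopologicalSpace N] [TopologicalSpace M]
    (h : LocEuc n N) (hM : ∀ m : M, ∃ g : N → M, IsOpenEmbedding g ∧ m ∈ range g) :
    LocEuc n M := by
  intro m
  obtain ⟨g, hg, x, rfl⟩ := hM m
  obtain ⟨f, hf, u, rfl⟩ := h x
  exact ⟨g ∘ f, hg.comp hf, u, rfl⟩

theorem LocEuc.prod {n m k : ℕ} {M N : Type} [TopologicalSpace M] [TopologicalSpace N]
    (hM : LocEuc n M) (hN : LocEuc m N) (hk : k = n + m) : LocEuc k (M × N) := by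
  rintro ⟨x, y⟩
  obtain ⟨f, hf, u, rfl⟩ := hM x
  obtain ⟨g, hg, v, rfl⟩ := hN y
  have e : EuclideanSpace ℝ (Fin k) ≃L[ℝ] (EuclideanSpace ℝ (Fin n) × EuclideanSpace ℝ (Fin m)) :=
    ContinuousLinearEquiv.ofFinrankEq (by simp [hk])
  refine ⟨Prod.map f g ∘ e, (hf.prodMap hg).comp e.toHomeomorph.isOpenEmbedding,
    e.symm (u, v), ?_⟩
  simp

theorem locEuc_self (n : ℕ) : LocEuc n (EuclideanSpace ℝ (Fin n)) :=
  fun x => ⟨id, IsOpenEmbedding.id, x, rfl⟩

theorem locEuc_real : LocEuc 1 ℝ := by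
  intro x
  have e : EuclideanSpace ℝ (Fin 1) ≃L[ℝ] ℝ := ContinuousLinearEquiv.ofFinrankEq (by simp)
  exact ⟨e, e.toHomeomorph.isOpenEmbedding, e.symm x, by simp⟩

theorem locEuc_LRo {I : Type} [LinearOrder I] [WellFoundedLT I]
    (hI : ∀ a : I, (Iio a).Countable) : LocEuc 1 (LRo I) :=
  locEuc_real.of_cover (LRo_locally hI)

/-- From one point to all points. -/
theorem exists_HNH {n : ℕ} {N : Type} [TopologicalSpace N] [ConnectedSpace N] (hN : LocEuc n N)
    (z₀ : N) {A : Type} [TopologicalSpace A] [Nonempty A] (f : A → N) (hf : IsEmbedding f)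
    (hfz : ∀ a, f a ∈ NH z₀) :
    ∃ (M : Type) (_ : TopologicalSpace M), ConnectedSpace M ∧ LocEuc n M ∧
      (∀ x y : M, ∃ h : M ≃ₜ M, h x = y) ∧
      ∀ z : M, ∃ g : A → M, IsEmbedding g ∧ ∀ a, g a ∈ NH z := by
  obtain ⟨M, _, ι, hι, hcon, hhom, hcov⟩ := exists_homogeneous N hN.locallyHomogeneous
  refine ⟨M, inferInstance, hcon, hN.of_cover hcov, hhom, ?_⟩
  intro z
  obtain ⟨h, hz⟩ := hhom (ι z₀) z
  have hemb : IsEmbedding (h ∘ ι) := h.isEmbedding.comp hι.isEmbedding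
  refine ⟨(h ∘ ι) ∘ f, hemb.comp hf, ?_⟩
  intro a
  have ha := hfz a
  refine ⟨?_, ?_⟩
  · intro heq
    rw [← hz] at heq
    exact ha.1 (hemb.injective heq)
  · intro U V hU hV haU hzV
    rw [← hz] at hzV
    obtain ⟨y, hy1, hy2⟩ := ha.2 ((h ∘ ι) ⁻¹' U) ((h ∘ ι) ⁻¹' V)
      (hU.preimage hemb.continuous) (hV.preimage hemb.continuous) haU hzV
    exact ⟨(h ∘ ι) y, hy1, hy2⟩

/-- Raising the dimension. -/
theorem exists_HNH_dim {n k : ℕ} {N : Type} [TopologicalSpace N] [ConnectedSpace N]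
    (hN : LocEuc n N) (hnk : n ≤ k)
    (z₀ : N) {A : Type} [TopologicalSpace A] [Nonempty A] (f : A → N) (hf : IsEmbedding f)
    (hfz : ∀ a, f a ∈ NH z₀) :
    ∃ (M : Type) (_ : TopologicalSpace M), IsHNHManifold k M ∧
      ∀ z : M, ∃ g : A → M, IsEmbedding g ∧ ∀ a, g a ∈ NH z := by
  obtain ⟨M, _, hcon, hloc, hhom, hM⟩ := exists_HNH hN z₀ f hf hfz
  obtain ⟨m, rfl⟩ := Nat.exists_eq_add_of_le hnk
  refine ⟨M × EuclideanSpace ℝ (Fin m), inferInstance, ?_, ?_⟩
  · have hloc' : LocEuc (n + m) (M × EuclideanSpace ℝ (Fin m)) :=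
      hloc.prod (locEuc_self m) rfl
    refine ⟨inferInstance, hloc'.charts, ?_, ?_⟩
    · intro hT2
      obtain ⟨a⟩ := (inferInstance : Nonempty A)
      obtain ⟨z⟩ := (inferInstance : Nonempty M)
      obtain ⟨g, hg, hga⟩ := hM z
      have h1 := hga a
      have hne : ((g a, 0) : M × EuclideanSpace ℝ (Fin m)) ≠ (z, 0) := by
        intro h
        exact h1.1 (congrArg Prod.fst h)
      obtain ⟨U, V, hU, hV, haU, hzV, hdisj⟩ := t2_separation hne
      have hc : Continuous (fun x : M => ((x, 0) : M × EuclideanSpace ℝ (Fin m))) := by fun_prop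
      obtain ⟨y, hy1, hy2⟩ := h1.2 _ _ (hU.preimage hc) (hV.preimage hc) haU hzV
      exact Set.disjoint_left.1 hdisj hy1 hy2
    · rintro ⟨x, u⟩ ⟨y, v⟩
      obtain ⟨h, hh⟩ := hhom x y
      refine ⟨h.prodCongr (Homeomorph.addRight (v - u)), ?_⟩
      simp [hh]
  · rintro ⟨z, u⟩
    obtain ⟨g, hg, hga⟩ := hM z
    refine ⟨fun a => (g a, u), ?_, ?_⟩
    · exact (isEmbedding_prodMkLeft u).comp hg
    · intro a
      have h1 := hga a
      refine ⟨fun h => h1.1 (congrArg Prod.fst h), ?_⟩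
      intro U V hU hV haU hzV
      have hc : Continuous (fun x : M => ((x, u) : M × EuclideanSpace ℝ (Fin m))) := by fun_prop
      obtain ⟨y, hy1, hy2⟩ := h1.2 _ _ (hU.preimage hc) (hV.preimage hc) haU hzV
      exact ⟨(y, u), hy1, hy2⟩

theorem cohSpace_locEuc {n : ℕ} {I : Type} [LinearOrder I] {Y : Type} [TopologicalSpace Y]
    {Q : Type} [TopologicalSpace Q] [Nonempty Q] (D : CohData I Y Q) (hY : LocEuc n Y) :
    LocEuc n D.Space := by
  refine hY.of_cover ?_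
  intro m
  obtain ⟨j, y, rfl⟩ := glueMap_surj D.Rel m
  exact ⟨glueMap D.Rel j, D.isOpenEmbedding j, y, rfl⟩

/-- Dimension two and the long ray. -/
theorem exists_two : ∃ (N : Type) (_ : TopologicalSpace N), ConnectedSpace N ∧ LocEuc 2 N ∧
    ∃ (z : N) (f : LR OmegaOne → N), IsEmbedding f ∧ ∀ a, f a ∈ NH z := by
  obtain ⟨i₀⟩ := (inferInstance : Nonempty OmegaOne)
  obtain ⟨F, good, coh⟩ := exists_coherent (I := OmegaOne) OmegaOne.countable_Iio
  have hne : Nonempty (Ioo (0 : ℝ) 1) := ⟨⟨1 / 2, by norm_num, by norm_num⟩⟩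
  have hcon : ConnectedSpace (LRo OmegaOne) := LRo_connected OmegaOne.countable_Iio
  set D := dataTwo i₀ F good coh with hD
  have hY : LocEuc 2 (LRo OmegaOne × ℝ) :=
    (locEuc_LRo OmegaOne.countable_Iio).prod locEuc_real rfl
  obtain ⟨j, hj⟩ := exists_closed_embedding (I := OmegaOne)
  have hs : IsEmbedding (fun x : LRo OmegaOne => (x, (0 : ℝ))) := isEmbedding_prodMkLeft 0
  have hsC : ∀ (x : LRo OmegaOne) b n, ((x, (0 : ℝ)) : LRo OmegaOne × ℝ) ∉ D.C b n := by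
    rintro x b n ⟨_, h⟩
    have h1 : aN n ≤ (0 : ℝ) := h.1
    linarith [aN_pos n]
  have hemb := D.axis_embedding _ hs hsC
  refine ⟨D.Space, inferInstance, D.connected, cohSpace_locEuc D hY,
    glueMap D.Rel none (eb i₀ ⟨1 / 2, by norm_num, by norm_num⟩, (0 : ℝ)), _, hemb.comp hj, ?_⟩
  intro a
  refine ⟨D.axis_ne _ _ (hsC (j a)) _, ?_⟩
  intro U V hU hV haU hzV
  refine D.axis_nonsep (j a, (0 : ℝ)) _ ?_ U V hU hV haU hzV
  intro V' hV' U' hU'
  exact two_approx i₀ F good coh (j a) V' hV' U' hU'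

/-- Dimension one and `ω₁`. -/
theorem exists_one : ∃ (N : Type) (_ : TopologicalSpace N), ConnectedSpace N ∧ LocEuc 1 N ∧
    ∃ (z : N) (f : OmegaOne → N), IsEmbedding f ∧ ∀ a, f a ∈ NH z := by
  obtain ⟨i₀⟩ := (inferInstance : Nonempty OmegaOne)
  obtain ⟨F, good, coh⟩ := exists_coherent (I := OmegaOne) OmegaOne.countable_Iio
  have hne : Nonempty (Ioo (0 : ℝ) 1) := ⟨⟨1 / 2, by norm_num, by norm_num⟩⟩
  have hcon : ConnectedSpace (LRo OmegaOne) := LRo_connected OmegaOne.countable_Iio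
  set D := dataOne i₀ F good coh with hD
  have hY : LocEuc 1 (LRo OmegaOne) := locEuc_LRo OmegaOne.countable_Iio
  have hsC : ∀ (x : OmegaOne) b n, mark x ∉ D.C b n := fun x b n => mark_notMem i₀ F good coh x b n
  have hemb := D.axis_embedding _ (mark_embedding (I := OmegaOne)) hsC
  refine ⟨D.Space, inferInstance, D.connected, cohSpace_locEuc D hY,
    glueMap D.Rel none (eb i₀ ⟨1 / 2, by norm_num, by norm_num⟩), _, hemb, ?_⟩
  intro a
  refine ⟨D.axis_ne _ _ (hsC a) _, ?_⟩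
  intro U V hU hV haU hzV
  refine D.axis_nonsep (mark a) _ ?_ U V hU hV haU hzV
  intro V' hV' U' hU'
  exact one_approx i₀ F good coh a V' hV' U' hU'

theorem main_longRay (n : ℕ) (hn : 2 ≤ n) : ∃ (M : Type) (_ : TopologicalSpace M),
    IsHNHManifold n M ∧ ∀ z : M, ∃ f : LongRay → M, IsEmbedding f ∧ ∀ a, f a ∈ NH z := by
  obtain ⟨N, _, hcon, hN, z, f, hf, hfz⟩ := exists_two
  have : Nonempty (LR OmegaOne) := by
    obtain ⟨i₀⟩ := (inferInstance : Nonempty OmegaOne)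
    exact ⟨LR.mk i₀ 0 ⟨le_rfl, one_pos⟩⟩
  obtain ⟨M, _, hM, hM'⟩ := exists_HNH_dim hN hn z f hf hfz
  refine ⟨M, inferInstance, hM, ?_⟩
  intro z
  obtain ⟨g, hg, hgz⟩ := hM' z
  exact ⟨g ∘ longRayIso.toHomeomorph, hg.comp longRayIso.toHomeomorph.isEmbedding,
    fun a => hgz _⟩

theorem main_omegaOne (n : ℕ) (hn : 1 ≤ n) : ∃ (M : Type) (_ : TopologicalSpace M),
    IsHNHManifold n M ∧
      ∀ z : M, ∃ f : Set.Iio (Ordinal.omega 1 : Ordinal.{0}) → M,
        IsEmbedding f ∧ ∀ a, f a ∈ NH z := by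
  obtain ⟨N, _, hcon, hN, z, f, hf, hfz⟩ := exists_one
  obtain ⟨M, _, hM, hM'⟩ := exists_HNH_dim hN hn z f hf hfz
  refine ⟨M, inferInstance, hM, ?_⟩
  intro z
  obtain ⟨g, hg, hgz⟩ := hM' z
  exact ⟨g ∘ omegaIso.toHomeomorph, hg.comp omegaIso.toHomeomorph.isEmbedding,
    fun a => hgz _⟩

end Pool.Agent.Helper42
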